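import Pool.Agent.TH639.B3.Loc
import Pool.Agent.W313.Gr.Ord

/-!
Points of order three and the form `y ^ 2 = x ^ 3 + (α x + β) ^ 2`.
-/

set_option autoImplicit false
set_option linter.all false
set_option maxHeartbeats 4000000

open WeierstrassCurve WeierstrassCurve.Affine

namespace Pool.Agent.TH639.B3

open Pool.Agent.W343.BSD Pool.Agent.W309.T3 Pool.Agent.W313.Gr

variable {F : Type} [Field F]

theorem isT3_of_slope {a b x y α : F} (h1 : α ^ 2 = 3 * x) (h2 : α * (2 * y) = 3 * x ^ 2 + a)
    (hP : y ^ 2 = x ^ 3 + a * x + b) : IsT3 a b α y := by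
  have e4 : α ^ 4 = 9 * x ^ 2 := by
    have : α ^ 4 = (α ^ 2) ^ 2 := by ring
    rw [this, h1]; ring
  have e6 : α ^ 6 = 27 * x ^ 3 := by
    have : α ^ 6 = (α ^ 2) ^ 3 := by ring
    rw [this, h1]; ring
  constructor
  · linear_combination -3 * h2 + e4
  · have e5 : α ^ 3 * y * 2 = 3 * x * (3 * x ^ 2 + a) := by
      have : α ^ 3 * y * 2 = α ^ 2 * (α * (2 * y)) := by ring
      rw [this, h2, h1]
    linear_combination -27 * hP + 9 * e5 - 2 * e6

theorem curve_eq (a b x y : F) : (curve a b).toAffine.Equation x y ↔ y ^ 2 = x ^ 3 + a * x + b := by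
  rw [equation_iff]
  show y ^ 2 + 0 * x * y + 0 * y = x ^ 3 + 0 * x ^ 2 + a * x + b ↔ _
  constructor
  · intro h; linear_combination h
  · intro h; linear_combination h

theorem isT3_of_order [DecidableEq F] (h2 : (2 : F) ≠ 0) {a b : F}
    (P : (curve a b).toAffine.Point) (hP : addOrderOf P = 3) :
    ∃ α β : F, β ≠ 0 ∧ IsT3 a b α β := by
  have h3P : (3 : ℕ) • P = 0 := by
    rw [← hP]
    exact addOrderOf_nsmul_eq_zero P
  have hne : P ≠ 0 := by
    rintro rfl
    rw [addOrderOf_zero] at hP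
    norm_num at hP
  have h2P : P + P = -P := by
    rw [show (3 : ℕ) = 2 + 1 from rfl, add_smul, two_smul, one_smul] at h3P
    exact eq_neg_of_add_eq_zero_left h3P
  rcases P with _ | ⟨x, y, hns⟩
  · exact absurd rfl hne
  have heq := (curve_eq a b x y).1 hns.1
  have hY : y ≠ (curve a b).toAffine.negY x y := by
    intro h
    rw [Point.add_self_of_Y_eq h] at h2P
    apply hne
    rw [← neg_eq_zero, ← h2P]
  have hneg : (curve a b).toAffine.negY x y = -y := by
    show -y - 0 * x - 0 = -y
    ring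
  rw [Point.add_self_of_Y_ne hY, Point.neg_some] at h2P
  have hx := (Point.some.inj h2P).1
  have hy0 : y ≠ 0 := by
    rintro rfl
    apply hY
    rw [hneg, neg_zero]
  have h2y : y - -y ≠ 0 := by
    have : y - -y = 2 * y := by ring
    rw [this]
    exact mul_ne_zero h2 hy0
  have hsl : (curve a b).toAffine.slope x x y y = (3 * x ^ 2 + a) / (2 * y) := by
    rw [slope_of_Y_ne rfl hY, hneg]
    show (3 * x ^ 2 + 2 * 0 * x + a - 0 * y) / (y - -y) = _
    have e1 : 3 * x ^ 2 + 2 * 0 * x + a - 0 * y = 3 * x ^ 2 + a := by ring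
    have e2 : y - -y = 2 * y := by ring
    rw [e1, e2]
  set α := (curve a b).toAffine.slope x x y y with hα
  refine ⟨α, y, hy0, isT3_of_slope ?_ ?_ heq⟩
  · have h5 : α ^ 2 + 0 * α - 0 - x - x = x := hx
    linear_combination h5
  · rw [hsl]
    exact div_mul_cancel₀ _ (mul_ne_zero h2 hy0)

theorem order_of_isT3 [DecidableEq F] (h2 : (2 : F) ≠ 0) (h3 : (3 : F) ≠ 0) {a b α β : F}
    (hβ : β ≠ 0) (h : IsT3 a b α β) : ∃ P : (curve a b).toAffine.Point, addOrderOf P = 3 := by
  obtain ⟨h4, h5⟩ := h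
  have h27 : (27 : F) ≠ 0 := by
    have : (27 : F) = 3 ^ 3 := by norm_num
    rw [this]; exact pow_ne_zero 3 h3
  set x := α ^ 2 / 3 with hx
  have hx3 : x * 3 = α ^ 2 := by rw [hx]; field_simp
  have e2 : 27 * x ^ 3 = α ^ 6 := by
    have : 27 * x ^ 3 = (x * 3) ^ 3 := by ring
    rw [this, hx3]; ring
  have e3 : 9 * x ^ 2 = α ^ 4 := by
    have : 9 * x ^ 2 = (x * 3) ^ 2 := by ring
    rw [this, hx3]; ring
  have heq : β ^ 2 = x ^ 3 + a * x + b := by
    apply mul_left_cancel₀ h27
    linear_combination -h5 - 9 * x * h4 - e2 + (-18 * α * β + 3 * α ^ 4) * hx3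
  have hsl' : α * (2 * β) = 3 * x ^ 2 + a := by
    apply mul_left_cancel₀ h3
    linear_combination -h4 - e3
  have hneg : (curve a b).toAffine.negY x β = -β := by
    show -β - 0 * x - 0 = -β
    ring
  have h2β : β - -β ≠ 0 := by
    have : β - -β = 2 * β := by ring
    rw [this]
    exact mul_ne_zero h2 hβ
  have hY : β ≠ (curve a b).toAffine.negY x β := by
    rw [hneg]
    exact sub_ne_zero.1 h2β
  have hns : (curve a b).toAffine.Nonsingular x β := by
    rw [nonsingular_iff]
    refine ⟨(curve_eq a b x β).2 heq, Or.inr ?_⟩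
    show β ≠ -β - 0 * x - 0
    intro h
    apply h2β
    linear_combination h
  set P : (curve a b).toAffine.Point := Point.some x β hns with hP
  have hslope : (curve a b).toAffine.slope x x β β = α := by
    rw [slope_of_Y_ne rfl hY, hneg]
    show (3 * x ^ 2 + 2 * 0 * x + a - 0 * β) / (β - -β) = α
    rw [div_eq_iff h2β]
    linear_combination -hsl'
  have h2P : P + P = -P := by
    rw [hP, Point.add_self_of_Y_ne hY, Point.neg_some]
    have hx' : (curve a b).toAffine.addX x x ((curve a b).toAffine.slope x x β β) = x := by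
      rw [hslope]
      show α ^ 2 + 0 * α - 0 - x - x = x
      linear_combination -hx3
    have hy' : (curve a b).toAffine.addY x x β ((curve a b).toAffine.slope x x β β) =
        (curve a b).toAffine.negY x β := by
      unfold addY negAddY
      rw [hx', sub_self, mul_zero, zero_add]
    congr 1
  have h3P : (3 : ℕ) • P = 0 := by
    rw [show (3 : ℕ) = 2 + 1 from rfl, add_smul, two_smul, one_smul, h2P, neg_add_cancel]
  have hP0 : P ≠ 0 := by
    rw [hP]
    exact Point.some_ne_zero _
  refine ⟨P, ?_⟩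
  have : Fact (Nat.Prime 3) := ⟨Nat.prime_three⟩
  exact addOrderOf_eq_prime h3P hP0

end Pool.Agent.TH639.B3
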