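import Pool.Agent.TH639.B3.Bd
import Pool.Agent.TH943.TT.Fam

/-!
The curves with a point of order three over `k(t)`.
-/

set_option autoImplicit false
set_option linter.all false
set_option maxHeartbeats 4000000

open Polynomial FF Module

namespace Pool.Agent.TH639.B3

open Pool.Agent.W343.BSD Pool.Agent.W309.RF Pool.Agent.H123R3.ZT Pool.Agent.W313.Gr
open Pool.Agent.TH943.LG (primes mem_primes)
open Pool.Agent.TH943.TT (reg_inf ord_inf)

section defs

variable {k : Type} [Field k]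

/-- the first coefficient -/
noncomputable def cA (α β : k[X]) : RatFunc k :=
  2 * algebraMap k[X] (RatFunc k) α * algebraMap k[X] (RatFunc k) β -
    algebraMap k[X] (RatFunc k) α ^ 4 / 3

/-- the second coefficient -/
noncomputable def cB (α β : k[X]) : RatFunc k :=
  algebraMap k[X] (RatFunc k) β ^ 2 -
    2 * algebraMap k[X] (RatFunc k) α ^ 3 * algebraMap k[X] (RatFunc k) β / 3 +
    2 * algebraMap k[X] (RatFunc k) α ^ 6 / 27

open Classical in
/-- the contribution of the finite places -/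
noncomputable def finB (α β : k[X]) : ℕ :=
  ∑ P ∈ primes β, (if P ∣ α ∧ 3 ∣ Nat.card k ^ P.natDegree - 1 then 2 else 1) *
    3 ^ padicValNat 3 P.natDegree +
  ∑ P ∈ (primes (4 * α ^ 3 - 27 * β)).filter
    (fun P => ¬ P ∣ β ∧ 3 ∣ Nat.card k ^ P.natDegree - 1), 3 ^ padicValNat 3 P.natDegree

open Classical in
/-- the contribution of the place at infinity -/
noncomputable def infB (α β : k[X]) : ℕ :=
  if β.natDegree < 3 * α.natDegree then 1
  else if 3 ∣ β.natDegree then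
    (if 3 ∣ Nat.card k - 1 ∧ (4 * α ^ 3 - 27 * β).natDegree < β.natDegree then 1 else 0)
  else if 3 ∣ Nat.card k - 1 then 2 else 1

theorem isT3_fam (h3 : (3 : RatFunc k) ≠ 0) (α β : k[X]) : IsT3 (cA α β) (cB α β) (A α) (A β) := by
  have h27 : (27 : RatFunc k) ≠ 0 := by
    have : (27 : RatFunc k) = 3 ^ 3 := by norm_num
    rw [this]
    exact pow_ne_zero 3 h3
  constructor
  · unfold cA
    show 3 * (2 * algebraMap k[X] (RatFunc k) α * algebraMap k[X] (RatFunc k) β -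
      algebraMap k[X] (RatFunc k) α ^ 4 / 3) = 6 * algebraMap k[X] (RatFunc k) α *
      algebraMap k[X] (RatFunc k) β - algebraMap k[X] (RatFunc k) α ^ 4
    field_simp
    ring
  · unfold cB
    show 27 * (algebraMap k[X] (RatFunc k) β ^ 2 -
      2 * algebraMap k[X] (RatFunc k) α ^ 3 * algebraMap k[X] (RatFunc k) β / 3 +
      2 * algebraMap k[X] (RatFunc k) α ^ 6 / 27) = 27 * algebraMap k[X] (RatFunc k) β ^ 2 -
      18 * algebraMap k[X] (RatFunc k) α ^ 3 * algebraMap k[X] (RatFunc k) β +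
      2 * algebraMap k[X] (RatFunc k) α ^ 6
    field_simp
    ring

theorem A_gam (α β : k[X]) : A (4 * α ^ 3 - 27 * β) = 4 * A α ^ 3 - 27 * A β := by
  show algebraMap k[X] (RatFunc k) (4 * α ^ 3 - 27 * β) = 4 * algebraMap k[X] (RatFunc k) α ^ 3 -
    27 * algebraMap k[X] (RatFunc k) β
  simp only [map_mul, map_sub, map_pow, map_ofNat]

theorem disc_ne (h3 : (3 : RatFunc k) ≠ 0) {α β : k[X]} (hβ : β ≠ 0)
    (hγ : 4 * α ^ 3 - 27 * β ≠ 0) : 4 * cA α β ^ 3 + 27 * cB α β ^ 2 ≠ 0 := by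
  rw [isT3_disc h3 (isT3_fam h3 α β), ← A_gam]
  exact neg_ne_zero.2 (mul_ne_zero (pow_ne_zero 3 (A_ne hβ)) (A_ne hγ))

end defs

section bound

variable {k : Type} [Field k] [Finite k]

theorem res_card (v : Place k (RatFunc k)) {n : ℕ} (h : v.deg = n) :
    ((3 : ℤ) ∣ (Nat.card (S.Res v) : ℤ) - 1) ↔ 3 ∣ Nat.card k ^ n - 1 := by
  have h1 : Nat.card (S.Res v) = Nat.card k ^ n := by
    rw [← h]
    exact Module.natCard_eq_pow_finrank (K := k) (V := v.RF)
  have hpos : 1 ≤ Nat.card k ^ n := Nat.one_le_pow _ _ Nat.card_pos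
  rw [h1, ← Nat.cast_one, ← Nat.cast_sub hpos]
  exact_mod_cast Iff.rfl

theorem sc_fin (h3 : (3 : RatFunc k) ≠ 0) {v : Place k (RatFunc k)} (hX : 0 ≤ v.ord RatFunc.X)
    (α β : k[X]) : Sc v (cA α β) (cB α β) (A α) (A β) 1 :=
  ⟨isT3_fam h3 α β, one_ne_zero, by rw [one_mul]; exact fin_reg hX _,
    by rw [one_pow, one_mul]; exact fin_reg hX _⟩

/-- the contribution at a unit parameter -/
theorem term_unit (h6 : (6 : k) ≠ 0) {v : Place k (RatFunc k)} {a b α β c : RatFunc k}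
    (h : Sc v a b α β c) (hΔ : 4 * a ^ 3 + 27 * b ^ 2 ≠ 0) (hb : v.red (c ^ 3 * β) ≠ 0)
    (h0 : locTerm v a b ≠ 0) : locTerm v a b = 1 ∧
      4 * v.red (c * α) ^ 3 = 27 * v.red (c ^ 3 * β) ∧
      (3 : ℤ) ∣ (Nat.card (S.Res v) : ℤ) - 1 := by
  have h3 := h3_of h6
  have hmin := h.isMin h3 (Or.inr hb)
  have hg : v.ord (minDisc v a b) ≠ 0 := fun h1 => h0 (locTerm_good v h1)
  have hn : 4 * v.red (c * α) ^ 3 = 27 * v.red (c ^ 3 * β) := by
    by_contra h1
    exact hg ((h.disc h3 hΔ hmin).2 ⟨hb, h1⟩)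
  have hd := h.node h6 (ab_of_disc hΔ) hmin hb hn
  rcases h.node_pm h6 hΔ hmin hb hn with ht | ht
  · exact ⟨locTerm_one v hg ht, hn, by rwa [ht] at hd⟩
  · exfalso
    apply h0
    unfold locTerm
    rw [if_pos (Or.inr ht)]

open Classical in
/-- the contribution at a finite place -/
theorem term_fin (h6 : (6 : k) ≠ 0) {α β : k[X]} (hβ : β ≠ 0) (hγ : 4 * α ^ 3 - 27 * β ≠ 0)
    {v : Place k (RatFunc k)} (hX : 0 ≤ v.ord RatFunc.X) {π : k[X]} (hirr : Irreducible π)
    (hdvd : ∀ p : Polynomial k, p ≠ 0 → (0 < v.ord (A p) ↔ π ∣ p))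
    (hdeg : v.deg = π.natDegree) (h0 : locTerm v (cA α β) (cB α β) ≠ 0) :
    (π ∣ β ∧ locTerm v (cA α β) (cB α β) ≤
      if π ∣ α ∧ 3 ∣ Nat.card k ^ π.natDegree - 1 then 2 else 1) ∨
    (¬ π ∣ β ∧ π ∣ 4 * α ^ 3 - 27 * β ∧ 3 ∣ Nat.card k ^ π.natDegree - 1 ∧
      locTerm v (cA α β) (cB α β) ≤ 1) := by
  have h3 : (3 : RatFunc k) ≠ 0 := W309.RK.three_K (k := k) h6
  have hΔ := disc_ne h3 hβ hγ
  have hsc := sc_fin h3 hX α β
  have hrc := res_card v hdeg
  have hredβ : v.red (1 ^ 3 * A β) = 0 ↔ π ∣ β := by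
    rw [one_pow, one_mul, v.red_eq_zero_iff (fin_reg hX _), hdvd β hβ]
    constructor
    · rintro (h | h)
      · exact absurd h (A_ne hβ)
      · exact h
    · exact Or.inr
  by_cases hb : π ∣ β
  · left
    refine ⟨hb, ?_⟩
    by_cases ha : π ∣ α
    · have h1 := locTerm_le v (cA α β) (cB α β)
      by_cases h2 : 3 ∣ Nat.card k ^ π.natDegree - 1
      · rw [if_pos ⟨ha, h2⟩]
        rw [if_pos (hrc.2 h2)] at h1
        exact h1
      · rw [if_neg (fun h => h2 h.2)]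
        rw [if_neg (fun h => h2 (hrc.1 h))] at h1
        exact h1
    · rw [if_neg (fun h => ha h.1)]
      apply locTerm_split
      have hα : α ≠ 0 := by
        rintro rfl
        exact ha (dvd_zero _)
      apply hsc.split h6 (ab_of_disc hΔ) (hredβ.2 hb)
      rw [one_mul, Ne, v.red_eq_zero_iff (fin_reg hX _), hdvd α hα]
      rintro (h | h)
      · exact A_ne hα h
      · exact ha h
  · right
    obtain ⟨e1, e2, e3⟩ := term_unit h6 hsc hΔ (fun h => hb (hredβ.1 h)) h0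
    refine ⟨hb, ?_, hrc.1 e3, e1.le⟩
    rw [← hdvd _ hγ]
    rw [one_pow, one_mul, one_mul] at e2
    have hreg : v.Reg (A (4 * α ^ 3 - 27 * β)) := fin_reg hX _
    have e4 : A (4 * α ^ 3 - 27 * β) = ((4 : ℕ) : RatFunc k) * A α ^ 3 -
        ((27 : ℕ) : RatFunc k) * A β := by
      rw [A_gam, Nat.cast_ofNat, Nat.cast_ofNat]
    have h5 : v.red (A (4 * α ^ 3 - 27 * β)) = 0 := by
      rw [e4, v.red_sub (v.reg_mul (reg_nat 4) (reg_pow (fin_reg hX α) 3))
        (v.reg_mul (reg_nat 27) (fin_reg hX β)), v.red_mul (reg_nat 4) (reg_pow (fin_reg hX α) 3),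
        v.red_mul (reg_nat 27) (fin_reg hX β), v.red_pow (fin_reg hX α), red_nat, red_nat,
        Nat.cast_ofNat, Nat.cast_ofNat, e2, sub_self]
    exact ((v.red_eq_zero_iff hreg).1 h5).resolve_left (A_ne hγ)

/-- the contribution at infinity -/
theorem term_inf (h6 : (6 : k) ≠ 0) {α β : k[X]} (hβ : β ≠ 0) (hγ : 4 * α ^ 3 - 27 * β ≠ 0)
    {v : Place k (RatFunc k)} (hX : v.ord RatFunc.X < 0) :
    locTerm v (cA α β) (cB α β) ≤ infB α β := by
  classical
  have h3 : (3 : RatFunc k) ≠ 0 := W309.RK.three_K (k := k) h6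
  have hΔ := disc_ne h3 hβ hγ
  have hT := isT3_fam h3 α β
  have hrc := res_card v (inf_deg hX)
  rw [pow_one] at hrc
  have hc0 : ∀ e : ℕ, (A (X ^ e : k[X]))⁻¹ ≠ 0 := fun e =>
    inv_ne_zero (A_ne (pow_ne_zero _ X_ne_zero))
  unfold infB
  by_cases c1 : β.natDegree < 3 * α.natDegree
  · rw [if_pos c1]
    have hα : α ≠ 0 := by
      rintro rfl
      simp at c1
    set e := α.natDegree with he
    have ra : v.Reg ((A (X ^ e : k[X]))⁻¹ * A α) := by
      have := reg_inf hX (f := α) (e := e) (j := 1) (by omega)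
      rwa [pow_one] at this
    have rb : v.Reg ((A (X ^ e : k[X]))⁻¹ ^ 3 * A β) := reg_inf hX (by omega)
    have hsc : Sc v (cA α β) (cB α β) (A α) (A β) (A (X ^ e : k[X]))⁻¹ := ⟨hT, hc0 e, ra, rb⟩
    apply locTerm_split
    apply hsc.split h6 (ab_of_disc hΔ)
    · rw [v.red_eq_zero_iff rb]
      right
      have h1 : A (X ^ e : k[X]) ≠ 0 := A_ne (pow_ne_zero _ X_ne_zero)
      rw [v.ord_mul (pow_ne_zero 3 (hc0 e)) (A_ne hβ), v.ord_pow, v.ord_inv,
        inf_ord' hX (pow_ne_zero _ X_ne_zero), inf_ord' hX hβ, natDegree_X_pow]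
      push_cast
      omega
    · have h2 := ord_inf hX hα (e := e) (j := 1) (by omega)
      rw [pow_one] at h2
      exact v.red_ne_zero (mul_ne_zero (hc0 e) (A_ne hα)) h2
  rw [if_neg c1]
  by_cases c2 : 3 ∣ β.natDegree
  · rw [if_pos c2]
    obtain ⟨e, he⟩ := c2
    have ra : v.Reg ((A (X ^ e : k[X]))⁻¹ * A α) := by
      have := reg_inf hX (f := α) (e := e) (j := 1) (by omega)
      rwa [pow_one] at this
    have rb : v.Reg ((A (X ^ e : k[X]))⁻¹ ^ 3 * A β) := reg_inf hX (by omega)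
    have hsc : Sc v (cA α β) (cB α β) (A α) (A β) (A (X ^ e : k[X]))⁻¹ := ⟨hT, hc0 e, ra, rb⟩
    have h2 := ord_inf hX hβ (e := e) (j := 3) (by omega)
    have hb : v.red ((A (X ^ e : k[X]))⁻¹ ^ 3 * A β) ≠ 0 :=
      v.red_ne_zero (mul_ne_zero (pow_ne_zero 3 (hc0 e)) (A_ne hβ)) h2
    by_cases h0 : locTerm v (cA α β) (cB α β) = 0
    · rw [h0]
      exact Nat.zero_le _
    obtain ⟨e1, e2, e3⟩ := term_unit h6 hsc hΔ hb h0
    rw [e1, if_pos]
    refine ⟨hrc.1 e3, ?_⟩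
    have e4 : (A (X ^ e : k[X]))⁻¹ ^ 3 * A (4 * α ^ 3 - 27 * β) =
        ((4 : ℕ) : RatFunc k) * ((A (X ^ e : k[X]))⁻¹ * A α) ^ 3 -
          ((27 : ℕ) : RatFunc k) * ((A (X ^ e : k[X]))⁻¹ ^ 3 * A β) := by
      rw [A_gam]
      push_cast
      ring
    have h5 : v.red ((A (X ^ e : k[X]))⁻¹ ^ 3 * A (4 * α ^ 3 - 27 * β)) = 0 := by
      rw [e4, v.red_sub (v.reg_mul (reg_nat 4) (reg_pow ra 3)) (v.reg_mul (reg_nat 27) rb),
        v.red_mul (reg_nat 4) (reg_pow ra 3), v.red_mul (reg_nat 27) rb, v.red_pow ra, red_nat,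
        red_nat, Nat.cast_ofNat, Nat.cast_ofNat, e2, sub_self]
    have hreg : v.Reg ((A (X ^ e : k[X]))⁻¹ ^ 3 * A (4 * α ^ 3 - 27 * β)) := by
      rw [e4, sub_eq_add_neg]
      exact v.reg_add (v.reg_mul (reg_nat 4) (reg_pow ra 3))
        (v.reg_neg (v.reg_mul (reg_nat 27) rb))
    have h7 := ((v.red_eq_zero_iff hreg).1 h5).resolve_left
      (mul_ne_zero (pow_ne_zero 3 (hc0 e)) (A_ne hγ))
    rw [v.ord_mul (pow_ne_zero 3 (hc0 e)) (A_ne hγ), v.ord_pow, v.ord_inv,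
      inf_ord' hX (pow_ne_zero _ X_ne_zero), inf_ord' hX hγ, natDegree_X_pow] at h7
    push_cast at h7
    omega
  · rw [if_neg c2]
    have h1 := locTerm_le v (cA α β) (cB α β)
    by_cases h2 : 3 ∣ Nat.card k - 1
    · rw [if_pos h2]
      rw [if_pos (hrc.2 h2)] at h1
      exact h1
    · rw [if_neg h2]
      rw [if_neg (fun h => h2 (hrc.1 h))] at h1
      exact h1

/-- the sum of the contributions over `k(t)` -/
theorem termSum_fam (h6 : (6 : k) ≠ 0) {α β : k[X]} (hβ : β ≠ 0) (hγ : 4 * α ^ 3 - 27 * β ≠ 0) :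
    termSum k (cA α β) (cB α β) ≤ finB α β + infB α β := by
  classical
  have h3 : (3 : RatFunc k) ≠ 0 := W309.RK.three_K (k := k) h6
  have hΔ := disc_ne h3 hβ hγ
  set B : Finset (Place k (RatFunc k)) := (bad_finite (k := k) hΔ).toFinset with hBdef
  have hB : ∀ v, v ∈ B ↔ v.red (minDisc v (cA α β) (cB α β)) = 0 := by
    intro v
    rw [hBdef, Set.Finite.mem_toFinset]
    rfl
  have e2 : termSum k (cA α β) (cB α β) =
      ∑ v ∈ B, locTerm v (cA α β) (cB α β) * 3 ^ padicValNat 3 (S.deg v) := by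
    unfold termSum
    apply finsum_eq_sum_of_support_subset
    intro v hv
    rw [Function.mem_support] at hv
    rw [Finset.mem_coe, hB]
    by_contra h
    apply hv
    rw [locTerm_good v ((S.ord_disc_iff v hΔ).2 h), zero_mul]
  rw [e2]
  set T2 := (primes (4 * α ^ 3 - 27 * β)).filter
    (fun P => ¬ P ∣ β ∧ 3 ∣ Nat.card k ^ P.natDegree - 1) with hT2
  set G : k[X] → ℕ := fun P => (if P ∈ primes β then
    (if P ∣ α ∧ 3 ∣ Nat.card k ^ P.natDegree - 1 then 2 else 1) else 1) *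
    3 ^ padicValNat 3 P.natDegree with hG
  have hdisj : Disjoint (primes β) T2 := by
    rw [Finset.disjoint_left]
    intro P hP hP2
    exact (Finset.mem_filter.1 hP2).2.1 ((mem_primes hβ).1 hP).2.2
  have hsum : ∑ P ∈ primes β ∪ T2, G P = finB α β := by
    rw [Finset.sum_union hdisj]
    unfold finB
    congr 1
    · refine Finset.sum_congr rfl fun P hP => ?_
      rw [hG]
      simp only
      rw [if_pos hP]
    · refine Finset.sum_congr rfl fun P hP => ?_
      rw [hG]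
      simp only
      rw [if_neg (fun h => (Finset.disjoint_left.1 hdisj) h hP), one_mul]
  rw [← hsum]
  apply sum_le
  · intro v hv hX hg
    have hc0 : locTerm v (cA α β) (cB α β) ≠ 0 := left_ne_zero_of_mul hg
    obtain ⟨π, hirr, hord, hnn, hdvd, hdeg⟩ := exists_irr hX
    have hass : Associated π (normalize π) := (normalize_associated π).symm
    have hmon : (normalize π).Monic := Polynomial.monic_normalize hirr.ne_zero
    have hirr' := hass.irreducible hirr
    have hdvd' : ∀ p : Polynomial k, p ≠ 0 → (0 < v.ord (A p) ↔ normalize π ∣ p) := fun p hp => by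
      rw [hdvd p hp]
      exact hass.dvd_iff_dvd_left
    have hdeg' : v.deg = (normalize π).natDegree := by
      rw [hdeg, deg_of_assoc hass]
    refine ⟨normalize π, ?_, hirr', (hdvd' _ hirr'.ne_zero).2 dvd_rfl, ?_⟩
    · rcases term_fin h6 hβ hγ hX hirr' hdvd' hdeg' hc0 with ⟨h1, -⟩ | ⟨h1, h2, h3, -⟩
      · exact Finset.mem_union_left _ ((mem_primes hβ).2 ⟨hmon, hirr', h1⟩)
      · exact Finset.mem_union_right _ (Finset.mem_filter.2
          ⟨(mem_primes hγ).2 ⟨hmon, hirr', h2⟩, h1, h3⟩)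
    · rw [S.deg_eq, hdeg', hG]
      simp only
      apply Nat.mul_le_mul_right
      rcases term_fin h6 hβ hγ hX hirr' hdvd' hdeg' hc0 with ⟨h1, h2⟩ | ⟨h1, h2, h3, h4⟩
      · rw [if_pos ((mem_primes hβ).2 ⟨hmon, hirr', h1⟩)]
        exact h2
      · rw [if_neg (fun h => h1 ((mem_primes hβ).1 h).2.2)]
        exact h4
  · intro v hv hX
    have e1 : padicValNat 3 1 = 0 := padicValNat.one
    rw [S.deg_eq, inf_deg hX, e1, pow_zero, mul_one]
    exact term_inf h6 hβ hγ hX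

/-- the bound over `k(t)` -/
theorem bound_fam (h6 : (6 : k) ≠ 0) {α β : k[X]} (hβ : β ≠ 0) (hγ : 4 * α ^ 3 - 27 * β ≠ 0)
    {m : ℕ} (hm : S.VanishesTo k (cA α β) (cB α β) m) :
    m + (if 3 ∣ Nat.card k - 1 then 4 else 2) ≤ finB α β + infB α β := by
  have h3 : (3 : RatFunc k) ≠ 0 := W309.RK.three_K (k := k) h6
  have hΔ := disc_ne h3 hβ hγ
  have : FF.IsFF k (RatFunc k) := (W309.RK.sb k).1
  have h1 := bound h6 (isT3_fam h3 α β) hΔ ((S.isZetaNum_iff 1).1 isZetaNum_rat)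
    (W309.RK.sb k).2.1 hm
  have h2 := termSum_fam h6 hβ hγ
  have h4 : rootSum 3 k (1 : ℤ[X]) = 0 := by
    have : Fact (Nat.Prime 3) := ⟨Nat.prime_three⟩
    unfold rootSum
    have e : ∀ x : ZMod 3, ((1 : ℤ[X]).map (Int.castRingHom (ZMod 3))).rootMultiplicity x = 0 := by
      intro x
      rw [Polynomial.map_one]
      apply Polynomial.rootMultiplicity_eq_zero
      simp
    rw [e, e]
  rw [h4, zero_add] at h1
  exact h1.trans h2

end bound

end Pool.Agent.TH639.B3
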