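import Pool.Agent.TH639.B3.Tw

/-!
The bound for the twists, modulo three.
-/

set_option autoImplicit false
set_option linter.all false
set_option maxHeartbeats 4000000

open PowerSeries FF Module

namespace Pool.Agent.TH639.B3

open Pool.Agent.W343.BSD Pool.Agent.H123R3.ZT Pool.Agent.W313.Gr Pool.Agent.W313.Hyp
open Pool.Agent.W309.T3 (rescale_eulerProd rescale_poly rm_comp binom_ne rm_binom card_char)

section defs

variable {k K : Type} [Field k] [Field K] [Algebra k K]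

open Classical in
/-- The contribution of a place to the bound for the twist by `u`. -/
noncomputable def twTerm (v : FF.Place k K) (a b u : K) : ℕ :=
  if v.ord (minDisc v (u ^ 2 * a) (u ^ 3 * b)) = 0 ∨ S.trace v (u ^ 2 * a) (u ^ 3 * b) = -1 then 0
  else if S.trace v (u ^ 2 * a) (u ^ 3 * b) = 1 then 1
  else if Odd (v.ord u) then 0
  else if ¬ (3 : ℤ) ∣ (Nat.card (S.Res v) : ℤ) - 1 then 1
  else if LocSq v u then 2 else 0

/-- The sum of the contributions. -/
noncomputable def twSum (k : Type) {K : Type} [Field k] [Field K] [Algebra k K] (a b u : K) : ℕ :=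
  ∑ᶠ v : FF.Place k K, twTerm v a b u * 3 ^ padicValNat 3 (S.deg v)

/-- the Euler factor of the pair of characters, modulo three -/
noncomputable def pairX (c : ZMod 3) (x : ℤ) (d : ℕ) : Polynomial (ZMod 3) :=
  (1 - Polynomial.C ((x : ℤ) : ZMod 3) * Polynomial.X ^ d) *
    (1 - Polynomial.C (((x : ℤ) : ZMod 3) * c ^ d) * Polynomial.X ^ d)

end defs

section alg

theorem pairX_ne (c : ZMod 3) (x : ℤ) {d : ℕ} (hd : 0 < d) : pairX c x d ≠ 0 :=
  mul_ne_zero (binom_ne hd) (binom_ne hd)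

theorem pairX_mod (c : ZMod 3) (x : ℤ) (d : ℕ) : (X : PowerSeries (ZMod 3)) ^ d ∣
    (pairX c x d : PowerSeries (ZMod 3)) - 1 := by
  unfold pairX
  rw [Polynomial.coe_mul]
  exact one_mod_mul (key_mod _ _) (key_mod _ _)

variable {k K : Type} [Field k] [Finite k] [Field K] [Algebra k K] [FF.IsFF k K]

instance : Fact (Nat.Prime 3) := ⟨Nat.prime_three⟩

/-- the identity modulo three -/
theorem pairX_identity {u : K} {P Q : Polynomial ℤ}
    (hrel : (Q : PowerSeries ℤ) * eulerProd (fun v : Place k K => v.deg)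
      (fun v => 1 - C (chi v u) * X ^ v.deg) = (P : PowerSeries ℤ)) :
    ((Q.map (Int.castRingHom (ZMod 3)) * (Q.map (Int.castRingHom (ZMod 3))).comp
      (Polynomial.C ((Nat.card k : ℕ) : ZMod 3) * Polynomial.X) : Polynomial (ZMod 3)) :
        PowerSeries (ZMod 3)) *
      eulerProd (fun v : Place k K => v.deg)
        (fun v => (pairX ((Nat.card k : ℕ) : ZMod 3) (chi v u) v.deg : PowerSeries (ZMod 3))) =
    ((P.map (Int.castRingHom (ZMod 3)) * (P.map (Int.castRingHom (ZMod 3))).comp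
      (Polynomial.C ((Nat.card k : ℕ) : ZMod 3) * Polynomial.X) : Polynomial (ZMod 3)) :
        PowerSeries (ZMod 3)) := by
  classical
  set q : ZMod 3 := ((Nat.card k : ℕ) : ZMod 3) with hq
  have hfin := fun n => places_fin (k := k) (K := K) n
  have h1 := congrArg (redL 3) hrel
  rw [map_mul, redL_poly, redL_poly, map_eulerProd hfin] at h1
  have e0 : (fun v : Place k K => redL 3 (1 - C (chi v u) * X ^ v.deg)) = fun v =>
      ((1 - Polynomial.C ((chi v u : ℤ) : ZMod 3) * Polynomial.X ^ v.deg : Polynomial (ZMod 3)) :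
        PowerSeries (ZMod 3)) := by
    funext v
    rw [map_sub, map_one, map_mul, map_pow, PowerSeries.map_X, PowerSeries.map_C,
      Polynomial.coe_sub, Polynomial.coe_one, Polynomial.coe_mul, Polynomial.coe_pow,
      Polynomial.coe_X, Polynomial.coe_C, eq_intCast]
  rw [e0] at h1
  have h2 := congrArg (rescale q) h1
  rw [map_mul, rescale_poly, rescale_poly, rescale_eulerProd hfin] at h2
  have e3 : (fun v : Place k K => rescale q ((1 - Polynomial.C ((chi v u : ℤ) : ZMod 3) *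
      Polynomial.X ^ v.deg : Polynomial (ZMod 3)) : PowerSeries (ZMod 3))) = fun v =>
      ((1 - Polynomial.C (((chi v u : ℤ) : ZMod 3) * q ^ v.deg) * Polynomial.X ^ v.deg :
        Polynomial (ZMod 3)) : PowerSeries (ZMod 3)) := by
    funext v
    rw [rescale_poly]
    congr 1
    rw [Polynomial.sub_comp, Polynomial.one_comp, Polynomial.mul_comp, Polynomial.C_comp,
      Polynomial.pow_comp, Polynomial.X_comp, mul_pow, ← Polynomial.C_pow, ← mul_assoc,
      ← Polynomial.C_mul]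
  rw [e3] at h2
  have e4 : (fun v : Place k K => (pairX q (chi v u) v.deg : PowerSeries (ZMod 3))) = fun v =>
      ((1 - Polynomial.C ((chi v u : ℤ) : ZMod 3) * Polynomial.X ^ v.deg : Polynomial (ZMod 3)) :
        PowerSeries (ZMod 3)) *
      ((1 - Polynomial.C (((chi v u : ℤ) : ZMod 3) * q ^ v.deg) * Polynomial.X ^ v.deg :
        Polynomial (ZMod 3)) : PowerSeries (ZMod 3)) := by
    funext v
    unfold pairX
    rw [Polynomial.coe_mul]
  rw [e4, eulerProd_mul hfin (fun v => key_mod _ _) (fun v => key_mod _ _), Polynomial.coe_mul,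
    Polynomial.coe_mul, ← h1, ← h2]
  ring

end alg

section loc

variable {k K : Type} [Field k] [Finite k] [Field K] [Algebra k K] [FF.IsFF k K] {v : Place k K}

theorem chi_odd {u : K} (h : Odd (v.ord u)) : chi v u = 0 := by
  unfold chi
  rw [if_pos h]

theorem chi_pm {u : K} (h : ¬ Odd (v.ord u)) : (chi v u = 1 ∧ LocSq v u) ∨
    (chi v u = -1 ∧ ¬ LocSq v u) := by
  unfold chi
  rw [if_neg h]
  by_cases h1 : LocSq v u
  · left; rw [if_pos h1]; exact ⟨rfl, h1⟩
  · right; rw [if_neg h1]; exact ⟨rfl, h1⟩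

theorem tw_disc_ne {a b u : K} (hΔ : 4 * a ^ 3 + 27 * b ^ 2 ≠ 0) (hu : u ≠ 0) :
    4 * (u ^ 2 * a) ^ 3 + 27 * (u ^ 3 * b) ^ 2 ≠ 0 := by
  rw [twist_disc]
  exact mul_ne_zero (pow_ne_zero 6 hu) hΔ

theorem twTerm_neg {a b u : K} (h : S.trace v (u ^ 2 * a) (u ^ 3 * b) = -1) :
    twTerm v a b u = 0 := by
  unfold twTerm
  rw [if_pos (Or.inr h)]

theorem twTerm_one {a b u : K} (hv : v.ord (minDisc v (u ^ 2 * a) (u ^ 3 * b)) ≠ 0)
    (h : S.trace v (u ^ 2 * a) (u ^ 3 * b) = 1) : twTerm v a b u = 1 := by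
  unfold twTerm
  rw [if_neg, if_pos h]
  rintro (h1 | h1)
  · exact hv h1
  · rw [h] at h1
    norm_num at h1

theorem twTerm_ram {a b u : K} (hv : v.ord (minDisc v (u ^ 2 * a) (u ^ 3 * b)) ≠ 0)
    (h : S.trace v (u ^ 2 * a) (u ^ 3 * b) = 0) (ho : Odd (v.ord u)) : twTerm v a b u = 0 := by
  unfold twTerm
  rw [if_neg, if_neg, if_pos ho]
  · rw [h]
    norm_num
  rintro (h1 | h1)
  · exact hv h1
  · rw [h] at h1
    norm_num at h1

open Classical in
theorem twTerm_add {a b u : K} (hv : v.ord (minDisc v (u ^ 2 * a) (u ^ 3 * b)) ≠ 0)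
    (h : S.trace v (u ^ 2 * a) (u ^ 3 * b) = 0) (ho : ¬ Odd (v.ord u)) : twTerm v a b u =
      if ¬ (3 : ℤ) ∣ (Nat.card (S.Res v) : ℤ) - 1 then 1 else if LocSq v u then 2 else 0 := by
  unfold twTerm
  rw [if_neg, if_neg, if_neg ho]
  · rw [h]
    norm_num
  rintro (h1 | h1)
  · exact hv h1
  · rw [h] at h1
    norm_num at h1

/-- the Euler factors at the places of good reduction -/
theorem loc_good (h6 : (6 : k) ≠ 0) {a b α β u : K} (h : IsT3 a b α β) (hβ : β ≠ 0)
    (hΔ : 4 * a ^ 3 + 27 * b ^ 2 ≠ 0) (hu : u ≠ 0)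
    (hv : v.red (minDisc v (u ^ 2 * a) (u ^ 3 * b)) ≠ 0) :
    locML 3 v (u ^ 2 * a) (u ^ 3 * b) = pairX ((Nat.card k : ℕ) : ZMod 3) (chi v u) v.deg := by
  classical
  have hΔ' := tw_disc_ne hΔ hu
  have hv' := (S.ord_disc_iff v hΔ').2 hv
  have hev : ¬ Odd (v.ord u) := fun hodd => (add_twist h6 h hβ hΔ hu hodd).2 hv'
  have hg : v.ord (minDisc v a b) = 0 := by rw [← disc_twist hΔ hu hev]; exact hv'
  have hN := pointsDvd_three h6 h hΔ v hg
  have ht := trace_twist h6 (v := v) (ab_of_disc hΔ) hu hev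
  have hqc : ((Nat.card (S.Res v) : ℕ) : ZMod 3) = ((Nat.card k : ℕ) : ZMod 3) ^ v.deg :=
    card_RFl v
  have h1 : ((S.trace v a b : ℤ) : ZMod 3) = ((Nat.card k : ℕ) : ZMod 3) ^ v.deg + 1 := by
    have h2 := (ZMod.intCast_zmod_eq_zero_iff_dvd _ _).2 hN
    push_cast at h2
    rw [hqc] at h2
    linear_combination -h2
  have h2 : ((trace v (u ^ 2 * a) (u ^ 3 * b) : ℤ) : ZMod 3) =
      ((chi v u : ℤ) : ZMod 3) * (((Nat.card k : ℕ) : ZMod 3) ^ v.deg + 1) := by
    rw [← h1, ← Int.cast_mul, ← ht]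
    rfl
  have hx : ((chi v u : ℤ) : ZMod 3) ^ 2 = 1 := by
    rcases chi_pm hev with ⟨h3, -⟩ | ⟨h3, -⟩
    · rw [h3]; norm_num
    · rw [h3]; norm_num
  rw [locML_eq, if_pos hv, h2, card_RFl]
  unfold pairX
  set x : ZMod 3 := ((chi v u : ℤ) : ZMod 3)
  set c : ZMod 3 := ((Nat.card k : ℕ) : ZMod 3) ^ v.deg
  have e1 : Polynomial.C (x * (c + 1)) = Polynomial.C x * (Polynomial.C c + 1) := by
    rw [Polynomial.C_mul, Polynomial.C_add, Polynomial.C_1]
  have e2 : (Polynomial.C c : Polynomial (ZMod 3)) = Polynomial.C x * Polynomial.C x *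
      Polynomial.C c := by
    rw [← Polynomial.C_mul, ← Polynomial.C_mul, ← sq, hx, one_mul]
  rw [e1, Polynomial.C_mul]
  linear_combination (Polynomial.X ^ (2 * v.deg)) * e2

/-- the Euler factors at the other places -/
theorem loc_bad (h6 : (6 : k) ≠ 0) {a b α β u : K} (h : IsT3 a b α β) (hβ : β ≠ 0)
    (hΔ : 4 * a ^ 3 + 27 * b ^ 2 ≠ 0) (hu : u ≠ 0)
    (hv : v.red (minDisc v (u ^ 2 * a) (u ^ 3 * b)) = 0) :
    (pairX ((Nat.card k : ℕ) : ZMod 3) (chi v u) v.deg).rootMultiplicity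
      ((Nat.card k : ℕ) : ZMod 3)⁻¹ =
      (locML 3 v (u ^ 2 * a) (u ^ 3 * b)).rootMultiplicity ((Nat.card k : ℕ) : ZMod 3)⁻¹ +
        twTerm v a b u * 3 ^ padicValNat 3 (S.deg v) := by
  classical
  have hΔ' := tw_disc_ne hΔ hu
  have hvn : v.ord (minDisc v (u ^ 2 * a) (u ^ 3 * b)) ≠ 0 := fun h1 =>
    (S.ord_disc_iff v hΔ').1 h1 hv
  have h3k : ((3 : ℕ) : k) ≠ 0 := three_ne h6
  have hq := card_ne_zero_mod (k := k) h3k
  set q : ZMod 3 := ((Nat.card k : ℕ) : ZMod 3) with hqdef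
  have hx : q⁻¹ ≠ 0 := inv_ne_zero hq
  have hd := deg_pos' v
  have hqd : q ^ v.deg * q⁻¹ ^ v.deg = 1 := by
    rw [← mul_pow, mul_inv_cancel₀ hq, one_pow]
  have hiff : ∀ c : ZMod 3, c * q⁻¹ ^ v.deg = 1 ↔ c = q ^ v.deg := by
    intro c
    constructor
    · intro h
      linear_combination q ^ v.deg * h - c * hqd
    · intro h
      rw [h, hqd]
  have hq2 : q ^ v.deg = 1 ∨ q ^ v.deg = -1 := by
    have h1 : q ^ v.deg ≠ 0 := pow_ne_zero _ hq
    generalize q ^ v.deg = z at h1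
    revert z
    decide
  have h11 : (1 : ZMod 3) ≠ -1 := by decide
  have hqc : ((Nat.card (S.Res v) : ℕ) : ZMod 3) = q ^ v.deg := card_RFl v
  have hq1 : ((3 : ℤ) ∣ (Nat.card (S.Res v) : ℤ) - 1) ↔ q ^ v.deg = 1 := by
    have h3 : ((3 : ℕ) : ℤ) ∣ (Nat.card (S.Res v) : ℤ) - 1 ↔ q ^ v.deg = 1 := by
      rw [← ZMod.intCast_zmod_eq_zero_iff_dvd]
      push_cast
      rw [hqc, sub_eq_zero]
    exact h3
  -- the multiplicity of the pair
  have hpair : (pairX q (chi v u) v.deg).rootMultiplicity q⁻¹ =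
      (if ((chi v u : ℤ) : ZMod 3) = q ^ v.deg then 3 ^ padicValNat 3 v.deg else 0) +
      (if ((chi v u : ℤ) : ZMod 3) = 1 then 3 ^ padicValNat 3 v.deg else 0) := by
    unfold pairX
    rw [rm_mul _ (binom_ne hd) (binom_ne hd), rm_binom 3 hx hd, rm_binom 3 hx hd]
    simp only [hiff]
    have e : (((chi v u : ℤ) : ZMod 3) * q ^ v.deg = q ^ v.deg) ↔ ((chi v u : ℤ) : ZMod 3) = 1 := by
      constructor
      · intro h1
        apply mul_right_cancel₀ (pow_ne_zero v.deg hq)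
        rw [h1, one_mul]
      · intro h1
        rw [h1, one_mul]
    simp only [e]
  have hloc : (locML 3 v (u ^ 2 * a) (u ^ 3 * b)).rootMultiplicity q⁻¹ =
      if ((S.trace v (u ^ 2 * a) (u ^ 3 * b) : ℤ) : ZMod 3) = q ^ v.deg then
        3 ^ padicValNat 3 v.deg else 0 := by
    rw [locML_eq, if_neg (not_not.2 hv), add_zero, rm_binom 3 hx hd]
    simp only [hiff]
    rfl
  rw [hpair, hloc, S.deg_eq]
  set N := 3 ^ padicValNat 3 v.deg with hN
  have hZ0 : q ^ v.deg ≠ 0 := pow_ne_zero _ hq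
  set Z := q ^ v.deg with hZ
  have c11 : ((1 : ℤ) : ZMod 3) = 1 := by decide
  have cm1 : ((-1 : ℤ) : ZMod 3) = -1 := by decide
  have c00 : ((0 : ℤ) : ZMod 3) = 0 := by decide
  have d1 : ¬ ((1 : ZMod 3) = -1) := by decide
  have d2 : ¬ ((-1 : ZMod 3) = 1) := by decide
  have d3 : ¬ ((0 : ZMod 3) = 1) := by decide
  by_cases hodd : Odd (v.ord u)
  · have ht := (add_twist h6 h hβ hΔ hu hodd).1
    rw [twTerm_ram hvn ht hodd, chi_odd hodd, ht, c00, if_neg hZ0.symm, if_neg d3]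
    ring
  have hvn' : v.ord (minDisc v a b) ≠ 0 := by
    rw [← disc_twist hΔ hu hodd]; exact hvn
  have ht := trace_twist h6 (v := v) (ab_of_disc hΔ) hu hodd
  rcases trace_cases h6 h hΔ hvn' with hT | ⟨hT, hdv⟩ | hT
  · rw [hT, mul_one] at ht
    rcases chi_pm hodd with ⟨hc, -⟩ | ⟨hc, -⟩
    · rw [hc] at ht ⊢
      rw [twTerm_one hvn ht, ht, c11, if_pos (rfl : (1 : ZMod 3) = 1)]
      ring
    · rw [hc] at ht ⊢
      rw [twTerm_neg ht, ht, cm1, if_neg d2]
      ring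
  · -- `q ^ d = -1`
    have hm1 : Z = -1 := by
      have h3 : ((3 : ℕ) : ℤ) ∣ (Nat.card (S.Res v) : ℤ) - S.trace v a b := hdv
      rw [← ZMod.intCast_zmod_eq_zero_iff_dvd, hT] at h3
      push_cast at h3
      rw [hqc] at h3
      linear_combination h3
    rw [hT] at ht
    rcases chi_pm hodd with ⟨hc, -⟩ | ⟨hc, -⟩
    · rw [hc] at ht ⊢
      have ht' : S.trace v (u ^ 2 * a) (u ^ 3 * b) = -1 := by rw [ht]; norm_num
      rw [twTerm_neg ht', ht', c11, cm1, hm1, if_neg d1, if_pos (rfl : (1 : ZMod 3) = 1),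
        if_pos (rfl : (-1 : ZMod 3) = -1)]
      ring
    · rw [hc] at ht ⊢
      have ht' : S.trace v (u ^ 2 * a) (u ^ 3 * b) = 1 := by rw [ht]; norm_num
      rw [twTerm_one hvn ht', ht', c11, cm1, hm1, if_neg d1, if_neg d2,
        if_pos (rfl : (-1 : ZMod 3) = -1)]
      ring
  · rw [hT, mul_zero] at ht
    rw [twTerm_add hvn ht hodd, ht, c00, if_neg hZ0.symm]
    rcases hq2 with hq3 | hq3
    · rw [if_neg (not_not.2 (hq1.2 hq3)), hq3]
      rcases chi_pm hodd with ⟨hc, hl⟩ | ⟨hc, hl⟩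
      · rw [hc, c11, if_pos (rfl : (1 : ZMod 3) = 1), if_pos hl]
        ring
      · rw [hc, cm1, if_neg d2, if_neg hl]
        ring
    · have hn1 : ¬ (3 : ℤ) ∣ (Nat.card (S.Res v) : ℤ) - 1 := by
        rw [hq1, hq3]
        exact d2
      rw [if_pos hn1, hq3]
      rcases chi_pm hodd with ⟨hc, hl⟩ | ⟨hc, hl⟩
      · rw [hc, c11, if_neg d1, if_pos (rfl : (1 : ZMod 3) = 1)]
        ring
      · rw [hc, cm1, if_neg d2, if_pos (rfl : (-1 : ZMod 3) = -1)]
        ring

/-- the bound for the twist -/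
theorem twist_bound (h6 : (6 : k) ≠ 0) {a b α β u : K} (h : IsT3 a b α β) (hβ : β ≠ 0)
    (hΔ : 4 * a ^ 3 + 27 * b ^ 2 ≠ 0) (hu : u ≠ 0) {P Q : Polynomial ℤ}
    (hP : P.map (Int.castRingHom (ZMod 3)) ≠ 0) (hQ : Q.map (Int.castRingHom (ZMod 3)) ≠ 0)
    (hrel : (Q : PowerSeries ℤ) * eulerProd (fun v : Place k K => v.deg)
      (fun v => 1 - C (chi v u) * X ^ v.deg) = (P : PowerSeries ℤ)) {m : ℕ}
    (hm : S.VanishesTo k (u ^ 2 * a) (u ^ 3 * b) m) :
    m + rootSum 3 k P ≤ rootSum 3 k Q + twSum k a b u := by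
  classical
  have hΔ' := tw_disc_ne hΔ hu
  set a' := u ^ 2 * a with ha'
  set b' := u ^ 3 * b with hb'
  have h3k : ((3 : ℕ) : k) ≠ 0 := three_ne h6
  have hq := card_ne_zero_mod (k := k) h3k
  set q : ZMod 3 := ((Nat.card k : ℕ) : ZMod 3) with hqdef
  set x : ZMod 3 := q⁻¹ with hx
  have hfin := fun n => places_fin (k := k) (K := K) n
  set B : Finset (Place k K) := (bad_finite (k := k) hΔ').toFinset with hBdef
  have hB : ∀ v, v ∈ B ↔ v.red (minDisc v a' b') = 0 := by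
    intro v
    rw [hBdef, Set.Finite.mem_toFinset]
    rfl
  have hgood : ∀ v, v ∉ B → (pairX q (chi v u) v.deg : PowerSeries (ZMod 3)) =
      (locML 3 v a' b' : PowerSeries (ZMod 3)) := by
    intro v hv
    have h1 : v.red (minDisc v a' b') ≠ 0 := fun h => hv ((hB v).2 h)
    rw [loc_good h6 h hβ hΔ hu h1]
  have h1 := fin_factor' hfin (fun v => pairX_mod q (chi v u) v.deg)
    (fun v => const_locML 3 v a' b') B hgood
  have h2 := pairX_identity (k := k) (K := K) hrel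
  have h3 := lfun_modL (k := k) 3 a' b'
  set Pb := P.map (Int.castRingHom (ZMod 3)) with hPb
  set Qb := Q.map (Int.castRingHom (ZMod 3)) with hQb
  have hPc0 := comp_ne hP hq
  have hQc0 := comp_ne hQ hq
  have hloc : ∀ v ∈ B, locML 3 v a' b' ≠ 0 := fun v _ => locML_ne 3 v a' b'
  have hpair : ∀ v ∈ B, pairX q (chi v u) v.deg ≠ 0 := fun v _ => pairX_ne _ _ (deg_pos' v)
  obtain ⟨G, hG⟩ := hm
  set GG : Polynomial (ZMod 3) := G.map (Int.castRingHom (ZMod 3)) with hGG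
  have hred : redL 3 (((1 - Polynomial.C (Nat.card k : ℤ) * Polynomial.X) ^ m * G :
      Polynomial ℤ) : PowerSeries ℤ) =
      (((1 - Polynomial.C q * Polynomial.X) ^ m * GG :
        Polynomial (ZMod 3)) : PowerSeries (ZMod 3)) := by
    rw [redL_poly]
    congr 1
    rw [Polynomial.map_mul, Polynomial.map_pow, Polynomial.map_sub, Polynomial.map_one,
      Polynomial.map_mul, Polynomial.map_C, Polynomial.map_X]
    have h3 : (Int.castRingHom (ZMod 3)) (Nat.card k : ℤ) = ((Nat.card k : ℕ) : ZMod 3) := by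
      rw [eq_intCast, Int.cast_natCast]
    rw [h3]
  rw [← S.lfun_eq hΔ', hG, hred] at h3
  -- the polynomial identity
  have h5 : (Pb * Pb.comp (Polynomial.C q * Polynomial.X)) *
      ((∏ v ∈ B, locML 3 v a' b') * ((1 - Polynomial.C q * Polynomial.X) ^ m * GG)) =
      (Qb * Qb.comp (Polynomial.C q * Polynomial.X)) * ∏ v ∈ B, pairX q (chi v u) v.deg := by
    apply Polynomial.coe_injective
    rw [Polynomial.coe_mul, Polynomial.coe_mul (∏ v ∈ B, locML 3 v a' b'), Polynomial.coe_mul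
      (Qb * Qb.comp (Polynomial.C q * Polynomial.X)), ← h2, coe_prod', coe_prod']
    linear_combination ((Qb * Qb.comp (Polynomial.C q * Polynomial.X) : Polynomial (ZMod 3)) :
      PowerSeries (ZMod 3)) * (((1 - Polynomial.C q * Polynomial.X) ^ m * GG :
        Polynomial (ZMod 3)) : PowerSeries (ZMod 3)) * h1 +
      ((Qb * Qb.comp (Polynomial.C q * Polynomial.X) : Polynomial (ZMod 3)) :
      PowerSeries (ZMod 3)) * (∏ v ∈ B, (pairX q (chi v u) v.deg : PowerSeries (ZMod 3))) * h3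
  have hR0 : (Qb * Qb.comp (Polynomial.C q * Polynomial.X)) *
      ∏ v ∈ B, pairX q (chi v u) v.deg ≠ 0 :=
    mul_ne_zero (mul_ne_zero hQ hQc0) (Finset.prod_ne_zero_iff.2 hpair)
  have hm0 : (1 - Polynomial.C q * Polynomial.X) ^ m * GG ≠ 0 := by
    intro h
    rw [h, mul_zero, mul_zero] at h5
    exact hR0 h5.symm
  have hlin : (1 - Polynomial.C q * Polynomial.X : Polynomial (ZMod 3)) ≠ 0 := by
    have := binom_ne (c := q) one_pos
    rwa [pow_one] at this
  have hprodL := Finset.prod_ne_zero_iff.2 hloc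
  have h7 := congrArg (Polynomial.rootMultiplicity x) h5
  rw [rm_mul x (mul_ne_zero hP hPc0) (mul_ne_zero hprodL hm0), rm_mul x hP hPc0,
    rm_comp hq hP, rm_mul x hprodL hm0, rm_prod _ _ _ hloc,
    rm_mul x (left_ne_zero_of_mul hm0) (right_ne_zero_of_mul hm0), rm_pow x hlin, rm_linear hq,
    rm_mul x (mul_ne_zero hQ hQc0) (Finset.prod_ne_zero_iff.2 hpair), rm_mul x hQ hQc0,
    rm_comp hq hQ, rm_prod _ _ _ hpair, hx, mul_inv_cancel₀ hq] at h7
  have hsum : twSum k a b u = ∑ v ∈ B, twTerm v a b u * 3 ^ padicValNat 3 (S.deg v) := by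
    unfold twSum
    apply finsum_eq_sum_of_support_subset
    intro v hv
    rw [Function.mem_support] at hv
    rw [Finset.mem_coe, hB]
    by_contra h
    apply hv
    unfold twTerm
    rw [if_pos (Or.inl ((S.ord_disc_iff v hΔ').2 h)), zero_mul]
  have h8 : ∑ v ∈ B, (pairX q (chi v u) v.deg).rootMultiplicity q⁻¹ =
      ∑ v ∈ B, (locML 3 v a' b').rootMultiplicity q⁻¹ + twSum k a b u := by
    rw [hsum, ← Finset.sum_add_distrib]
    exact Finset.sum_congr rfl fun v hv => loc_bad h6 h hβ hΔ hu ((hB v).1 hv)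
  rw [h8] at h7
  show m + (Pb.rootMultiplicity q⁻¹ + Pb.rootMultiplicity 1) ≤
    (Qb.rootMultiplicity q⁻¹ + Qb.rootMultiplicity 1) + twSum k a b u
  omega

end loc

end Pool.Agent.TH639.B3
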