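import Pool.Agent.TH639.B3.Pl

/-!
The bound for the order of vanishing modulo three.
-/

set_option autoImplicit false
set_option linter.all false
set_option maxHeartbeats 4000000

open FF Module

namespace Pool.Agent.TH639.B3

open Pool.Agent.W343.BSD Pool.Agent.W309.T3 Pool.Agent.H123R3.ZT Pool.Agent.W313.Gr

section den

/-- the multiplicity of the denominator -/
theorem den_rm {l : ℕ} [Fact l.Prime] {c : ZMod l} (hc : c ≠ 0) :
    (den l c).rootMultiplicity c⁻¹ = 2 + 2 * (if c = 1 then 1 else 0) := by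
  have hx : c⁻¹ ≠ 0 := inv_ne_zero hc
  have n1 : (1 - Polynomial.C 1 * Polynomial.X ^ 1 : Polynomial (ZMod l)) ≠ 0 := binom_ne one_pos
  have n2 : (1 - Polynomial.C c * Polynomial.X ^ 1 : Polynomial (ZMod l)) ≠ 0 := binom_ne one_pos
  have n12 := mul_ne_zero n1 n2
  unfold den
  rw [rm_mul _ n12 (comp_ne n12 hc), rm_comp hc n12, mul_inv_cancel₀ hc, rm_mul _ n1 n2,
    rm_mul _ n1 n2, rm_binom l hx one_pos, rm_binom l hx one_pos, rm_binom l one_ne_zero one_pos,
    rm_binom l one_ne_zero one_pos]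
  have e : (1 * c⁻¹ ^ 1 = 1) ↔ c = 1 := by
    rw [one_mul, pow_one]
    exact inv_eq_one
  have e2 : c * c⁻¹ ^ 1 = 1 := by rw [pow_one, mul_inv_cancel₀ hc]
  have e3 : (1 : ZMod l) * 1 ^ 1 = 1 := by rw [one_pow, one_mul]
  have e4 : (c * 1 ^ 1 = 1) ↔ c = 1 := by rw [one_pow, mul_one]
  have ev : padicValNat l 1 = 0 := padicValNat.one
  rw [if_pos e2, if_pos e3, ev, pow_zero]
  by_cases h : c = 1
  · simp only [if_pos (e.2 h), if_pos (e4.2 h), if_pos h]
    norm_num
  · simp only [if_neg (fun h1 => h (e.1 h1)), if_neg (fun h1 => h (e4.1 h1)), if_neg h]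
    norm_num

end den

section term

variable {k K : Type} [Field k] [Field K] [Algebra k K]

open Classical in
/-- The contribution of a place: `0` for good or nonsplit multiplicative reduction, `1` for split
multiplicative reduction, and for additive reduction `2` or `1` as `3` divides `q_v - 1` or not. -/
noncomputable def locTerm (v : FF.Place k K) (a b : K) : ℕ :=
  if v.ord (minDisc v a b) = 0 ∨ S.trace v a b = -1 then 0
  else if S.trace v a b = 1 then 1
  else if (3 : ℤ) ∣ (Nat.card (S.Res v) : ℤ) - 1 then 2 else 1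

/-- The sum of the contributions of the places, times the largest power of `3` dividing the
degree. -/
noncomputable def termSum (k : Type) {K : Type} [Field k] [Field K] [Algebra k K] (a b : K) : ℕ :=
  ∑ᶠ v : FF.Place k K, locTerm v a b * 3 ^ padicValNat 3 (S.deg v)

open Classical in
theorem locTerm_le (v : FF.Place k K) (a b : K) :
    locTerm v a b ≤ if (3 : ℤ) ∣ (Nat.card (S.Res v) : ℤ) - 1 then 2 else 1 := by
  unfold locTerm
  split_ifs <;> omega

theorem locTerm_good (v : FF.Place k K) {a b : K} (h : v.ord (minDisc v a b) = 0) :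
    locTerm v a b = 0 := by
  unfold locTerm
  rw [if_pos (Or.inl h)]

theorem locTerm_one (v : FF.Place k K) {a b : K} (hv : v.ord (minDisc v a b) ≠ 0)
    (h : S.trace v a b = 1) : locTerm v a b = 1 := by
  unfold locTerm
  rw [if_neg, if_pos h]
  rintro (h1 | h1)
  · exact hv h1
  · rw [h] at h1
    norm_num at h1

open Classical in
theorem locTerm_add (v : FF.Place k K) {a b : K} (hv : v.ord (minDisc v a b) ≠ 0)
    (h : S.trace v a b = 0) : locTerm v a b =
      if (3 : ℤ) ∣ (Nat.card (S.Res v) : ℤ) - 1 then 2 else 1 := by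
  unfold locTerm
  rw [if_neg, if_neg]
  · rw [h]
    norm_num
  rintro (h1 | h1)
  · exact hv h1
  · rw [h] at h1
    norm_num at h1

theorem locTerm_split (v : FF.Place k K) {a b : K} (h : S.trace v a b = 1) :
    locTerm v a b ≤ 1 := by
  unfold locTerm
  rw [if_pos h]
  split_ifs <;> omega

end term

section wt

variable {k K : Type} [Field k] [Finite k] [Field K] [Algebra k K] [FF.IsFF k K] {v : Place k K}

theorem sc_min (h3 : (3 : k) ≠ 0) {a b α β : K} (h : IsT3 a b α β)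
    (hΔ : 4 * a ^ 3 + 27 * b ^ 2 ≠ 0) : Sc v a b α β (minScale v a b) := by
  have hab := ab_of_disc hΔ
  have hs := minScale_spec v hab
  have h1 := isT3_scale (minScale v a b) h
  exact ⟨h, hs.1, reg_alpha h1 hs.2.1 hs.2.2.1, reg_beta h3 h1 hs.2.1 hs.2.2.1⟩

theorem pointsDvd_three (h6 : (6 : k) ≠ 0) {a b α β : K} (h : IsT3 a b α β)
    (hΔ : 4 * a ^ 3 + 27 * b ^ 2 ≠ 0) : PointsDvd 3 k a b := by
  intro v hv
  have hab := ab_of_disc hΔ
  have hs := minScale_spec v hab
  have hsc := sc_min (v := v) (h3_of h6) h hΔ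
  have h1 := (hsc.disc (h3_of h6) hΔ hs).1 hv
  exact_mod_cast hsc.good h6 hab hs h1.1 h1.2

theorem trace_cases (h6 : (6 : k) ≠ 0) {a b α β : K} (h : IsT3 a b α β)
    (hΔ : 4 * a ^ 3 + 27 * b ^ 2 ≠ 0) (hv : v.ord (minDisc v a b) ≠ 0) :
    S.trace v a b = 1 ∨ (S.trace v a b = -1 ∧ (3 : ℤ) ∣ Nat.card (S.Res v) - S.trace v a b) ∨
      S.trace v a b = 0 := by
  have hab := ab_of_disc hΔ
  have hs := minScale_spec v hab
  have hsc := sc_min (v := v) (h3_of h6) h hΔ
  have h1 := (hsc.disc (h3_of h6) hΔ hs).not.1 hv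
  by_cases hb : v.red (minScale v a b ^ 3 * β) = 0
  · by_cases ha : v.red (minScale v a b * α) = 0
    · exact Or.inr (Or.inr (hsc.cusp h6 hab hs hb ha))
    · exact Or.inl (hsc.split h6 hab hb ha)
  · have h2 : 4 * v.red (minScale v a b * α) ^ 3 = 27 * v.red (minScale v a b ^ 3 * β) := by
      by_contra h3
      exact h1 ⟨hb, h3⟩
    rcases hsc.node_pm h6 hΔ hs hb h2 with h4 | h4
    · exact Or.inl h4
    · exact Or.inr (Or.inl ⟨h4, hsc.node h6 hab hs hb h2⟩)

theorem weight_le (h6 : (6 : k) ≠ 0) {a b α β : K} (h : IsT3 a b α β)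
    (hΔ : 4 * a ^ 3 + 27 * b ^ 2 ≠ 0) :
    weight 3 v a b ≤ locTerm v a b * 3 ^ padicValNat 3 (S.deg v) := by
  classical
  unfold weight
  by_cases hv : v.ord (minDisc v a b) = 0
  · rw [if_pos hv]
    exact Nat.zero_le _
  rw [if_neg hv]
  apply Nat.mul_le_mul_right
  have cast : (((3 : ℕ) : ℤ) ∣ (Nat.card (S.Res v) : ℤ) - 1) ↔
      ((3 : ℤ) ∣ (Nat.card (S.Res v) : ℤ) - 1) := Iff.rfl
  rcases trace_cases h6 h hΔ hv with ht | ⟨ht, hd⟩ | ht
  · rw [locTerm_one v hv ht, ht]
    by_cases h2 : ((3 : ℕ) : ℤ) ∣ (Nat.card (S.Res v) : ℤ) - 1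
    · simp only [if_pos h2]
      omega
    · simp only [if_neg h2]
      omega
  · have h2 : ¬ ((3 : ℕ) : ℤ) ∣ (Nat.card (S.Res v) : ℤ) - 1 := by
      intro h2
      rw [ht] at hd
      push_cast at h2
      omega
    have hd' : ((3 : ℕ) : ℤ) ∣ (Nat.card (S.Res v) : ℤ) - S.trace v a b := hd
    rw [if_neg h2, if_pos hd']
    exact Nat.zero_le _
  · rw [locTerm_add v hv ht]
    by_cases h2 : ((3 : ℕ) : ℤ) ∣ (Nat.card (S.Res v) : ℤ) - 1
    · rw [if_pos h2, if_pos (cast.1 h2)]
      exact Nat.sub_le _ _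
    · rw [if_neg h2, if_neg (fun h3 => h2 (cast.2 h3))]
      exact Nat.sub_le _ _

theorem weightSum_le (h6 : (6 : k) ≠ 0) {a b α β : K} (h : IsT3 a b α β)
    (hΔ : 4 * a ^ 3 + 27 * b ^ 2 ≠ 0) : weightSum 3 k a b ≤ termSum k a b := by
  classical
  set B : Finset (Place k K) := (bad_finite (k := k) hΔ).toFinset with hBdef
  have hB : ∀ v, v ∈ B ↔ v.red (minDisc v a b) = 0 := by
    intro v
    rw [hBdef, Set.Finite.mem_toFinset]
    rfl
  have e1 : weightSum 3 k a b = ∑ v ∈ B, weight 3 v a b := by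
    unfold weightSum
    apply finsum_eq_sum_of_support_subset
    intro v hv
    rw [Function.mem_support] at hv
    rw [Finset.mem_coe, hB]
    by_contra h
    apply hv
    unfold weight
    rw [if_pos ((S.ord_disc_iff v hΔ).2 h)]
  have e2 : termSum k a b = ∑ v ∈ B, locTerm v a b * 3 ^ padicValNat 3 (S.deg v) := by
    unfold termSum
    apply finsum_eq_sum_of_support_subset
    intro v hv
    rw [Function.mem_support] at hv
    rw [Finset.mem_coe, hB]
    by_contra h
    apply hv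
    rw [locTerm_good v ((S.ord_disc_iff v hΔ).2 h), zero_mul]
  rw [e1, e2]
  exact Finset.sum_le_sum fun v _ => weight_le h6 h hΔ

/-- the bound -/
theorem bound (h6 : (6 : k) ≠ 0) {a b α β : K} (h : IsT3 a b α β)
    (hΔ : 4 * a ^ 3 + 27 * b ^ 2 ≠ 0) {P : Polynomial ℤ} (hP : IsZetaNumRel k K P)
    (hr : constDeg k K = 1) {m : ℕ} (hm : S.VanishesTo k a b m) :
    m + (if 3 ∣ Nat.card k - 1 then 4 else 2) ≤ rootSum 3 k P + termSum k a b := by
  have : Fact (Nat.Prime 3) := ⟨Nat.prime_three⟩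
  have h3 : ((3 : ℕ) : k) ≠ 0 := three_ne h6
  have h1 := TH943.TT.vanish_le (l := 3) h3 hΔ (pointsDvd_three h6 h hΔ) hP hr hm
  have hq := card_ne_zero_mod (k := k) h3
  rw [den_rm hq] at h1
  have h2 := weightSum_le (k := k) h6 h hΔ
  have h4 : (((Nat.card k : ℕ) : ZMod 3) = 1) ↔ 3 ∣ Nat.card k - 1 := by
    have hpos : 1 ≤ Nat.card k := Nat.card_pos
    rw [← ZMod.natCast_eq_zero_iff, Nat.cast_sub hpos, Nat.cast_one, sub_eq_zero]
  simp only [h4] at h1
  split_ifs at h1 ⊢ <;> omega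

end wt

end Pool.Agent.TH639.B3
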