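import Pool.Agent.TH639.B3.Bd

/-!
The places of a quadratic extension of a function field.
-/

set_option autoImplicit false
set_option linter.all false
set_option maxHeartbeats 4000000

open PowerSeries FF Module

namespace Pool.Agent.TH639.B3

open Pool.Agent.W343.BSD Pool.Agent.H123R3.ZT

section defs

variable {k K : Type} [Field k] [Field K] [Algebra k K]

/-- `u` is a square in the completion at `v` -/
def LocSq (v : Place k K) (u : K) : Prop := ∃ s : K, u = s ^ 2 ∨ v.ord u < v.ord (u - s ^ 2)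

open Classical in
/-- the quadratic character of `K(√u)` at `v` -/
noncomputable def chi (v : Place k K) (u : K) : ℤ :=
  if Odd (v.ord u) then 0 else if LocSq v u then 1 else -1

theorem exists_half {v : Place k K} {u : K} (h : ¬ Odd (v.ord u)) :
    ∃ t : K, t ≠ 0 ∧ v.ord u = 2 * v.ord t := by
  obtain ⟨p, hp0, hp⟩ := v.surj
  rw [Int.not_odd_iff_even] at h
  obtain ⟨n, hn⟩ := h
  refine ⟨p ^ n, zpow_ne_zero n hp0, ?_⟩
  rw [v.ord_zpow, hp, hn]
  ring

end defs

section fib

variable {k K L : Type} [Field k] [Finite k] [Field K] [Algebra k K] [FF.IsFF k K] [Field L]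
  [Algebra k L] [Algebra K L] [IsScalarTower k K L] [FF.IsFF k L] [FiniteDimensional K L]
  [IsGalois K L]

theorem exists_neg {u : K} {θ : L} (hθ : θ ^ 2 = algebraMap K L u) (hns : ∀ s : K, u ≠ s ^ 2) :
    ∃ σ : L ≃ₐ[K] L, σ θ = -θ := by
  have h1 : θ ∉ (algebraMap K L).range := by
    rintro ⟨s, rfl⟩
    apply hns s
    apply (algebraMap K L).injective
    rw [map_pow, hθ]
  have h2 : ∃ σ : L ≃ₐ[K] L, σ θ ≠ θ := by
    by_contra h
    push Not at h
    exact h1 ((IsGalois.mem_range_algebraMap_iff_fixed θ).2 h)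
  obtain ⟨σ, hσ⟩ := h2
  refine ⟨σ, ?_⟩
  have h3 : (σ θ - θ) * (σ θ + θ) = 0 := by
    have h4 : (σ θ) ^ 2 = θ ^ 2 := by
      rw [← map_pow, hθ, AlgEquiv.commutes]
    linear_combination h4
  rcases mul_eq_zero.1 h3 with h | h
  · exact absurd (sub_eq_zero.1 h) hσ
  · exact eq_neg_of_add_eq_zero_left h

theorem fib_odd {v : Place k K} {S : Finset (Place k L)} {e f : ℕ} (D : GaloisFiber v S e f)
    (hn : finrank K L = 2) {u : K} (hu : u ≠ 0) {θ : L} (hθ : θ ^ 2 = algebraMap K L u)
    (h : Odd (v.ord u)) : S.card = 1 ∧ f = 1 := by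
  obtain ⟨w, hw⟩ := D.nonempty
  have ho := (D.isOver w hw).2 u
  rw [← hθ, w.ord_pow] at ho
  have hmul := D.mul
  rw [hn] at hmul
  have he : Even e := by
    have h1 : Even ((e : ℤ) * v.ord u) := by
      rw [← ho]
      exact ⟨w.ord θ, by push_cast; ring⟩
    rcases Int.even_mul.1 h1 with h2 | h2
    · exact_mod_cast h2
    · exact absurd h2 (Int.not_even_iff_odd.2 h)
  obtain ⟨j, rfl⟩ := he
  have hc : 0 < S.card := Finset.card_pos.2 D.nonempty
  have h3 : S.card * (j * f) = 1 := by nlinarith [hmul]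
  have h4 := Nat.eq_one_of_mul_eq_one_right h3
  have h5 := Nat.eq_one_of_mul_eq_one_left h3
  exact ⟨h4, Nat.eq_one_of_mul_eq_one_left h5⟩

theorem two_L (h6 : (6 : k) ≠ 0) : (2 : L) ≠ 0 := by
  have h := two_ne h6
  have h' : (2 : k) ≠ 0 := by exact_mod_cast h
  have : (2 : L) = algebraMap k L 2 := by rw [map_ofNat]
  rw [this]
  exact (_root_.map_ne_zero _).2 h'

theorem fib_split (h6 : (6 : k) ≠ 0) {v : Place k K} {S : Finset (Place k L)} {e f : ℕ}
    (D : GaloisFiber v S e f) (hn : finrank K L = 2) {u : K} (hu : u ≠ 0) {θ : L}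
    (hθ : θ ^ 2 = algebraMap K L u) (hns : ∀ s : K, u ≠ s ^ 2) (h : LocSq v u) :
    S.card = 2 ∧ f = 1 := by
  obtain ⟨s, hs⟩ := h
  have hs := hs.resolve_left (hns s)
  obtain ⟨w, hw⟩ := D.nonempty
  have hov := D.isOver w hw
  have hmul := D.mul
  rw [hn] at hmul
  have hc : 0 < S.card := Finset.card_pos.2 D.nonempty
  have hne1 : S.card ≠ 1 := by
    intro h1
    obtain ⟨w', hw'⟩ := Finset.card_eq_one.1 h1
    obtain ⟨σ, hσ⟩ := exists_neg hθ hns
    have hcj : cj σ w = w := by
      have h2 := D.mem _ _ (over_cj hov σ)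
      rw [hw', Finset.mem_singleton] at h2
      rw [hw', Finset.mem_singleton] at hw
      rw [h2, hw]
    have hθK : ∀ r : K, θ - algebraMap K L r ≠ 0 ∧ θ + algebraMap K L r ≠ 0 := by
      intro r
      constructor
      · intro h3
        apply hns r
        apply (algebraMap K L).injective
        rw [map_pow, ← hθ, sub_eq_zero.1 h3]
      · intro h3
        apply hns r
        apply (algebraMap K L).injective
        rw [map_pow, ← hθ, eq_neg_of_add_eq_zero_left h3]
        ring
    have e1 : w.ord (θ - algebraMap K L s) = w.ord (θ + algebraMap K L s) := by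
      have h3 := cj_ord σ w (θ - algebraMap K L s)
      rw [hcj, map_sub, hσ, AlgEquiv.commutes] at h3
      rw [h3, ← w.ord_neg]
      congr 1
      ring
    have e2 : w.ord (θ - algebraMap K L s) + w.ord (θ + algebraMap K L s) =
        e * v.ord (u - s ^ 2) := by
      rw [← w.ord_mul (hθK s).1 (hθK s).2, ← hov.2]
      congr 1
      rw [map_sub, map_pow, ← hθ]
      ring
    have e3 : 2 * w.ord θ = e * v.ord u := by
      have := hov.2 u
      rw [← hθ, w.ord_pow] at this
      exact_mod_cast this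
    have he : (0 : ℤ) < e := by exact_mod_cast hov.1
    have e4 : (e : ℤ) * v.ord u < e * v.ord (u - s ^ 2) := mul_lt_mul_of_pos_left hs he
    have h2L : (2 : L) ≠ 0 := two_L h6
    have e5 : w.ord ((2 : L) * θ) = w.ord θ := by
      have hθ0 : θ ≠ 0 := by
        intro h0
        rw [h0] at hθ
        apply hu
        apply (algebraMap K L).injective
        rw [← hθ, map_zero]
        ring
      rw [w.ord_mul h2L hθ0]
      have : w.ord (2 : L) = 0 := by
        have h3 : (2 : L) = algebraMap k L 2 := by rw [map_ofNat]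
        rw [h3]
        apply w.ord_const
        have h := two_ne h6
        exact_mod_cast h
      rw [this, zero_add]
    have e6 : (θ - algebraMap K L s) + (θ + algebraMap K L s) = 2 * θ := by ring
    have e7 := w.ord_add (hθK s).1 (hθK s).2 (by
      rw [e6]
      apply mul_ne_zero h2L
      intro h0
      rw [h0] at hθ
      apply hu
      apply (algebraMap K L).injective
      rw [← hθ, map_zero]
      ring)
    rw [e6, e5, e1, min_self] at e7
    omega
  have h2 : S.card ∣ 2 := ⟨_, hmul.symm⟩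
  have h3 : S.card ≤ 2 := Nat.le_of_dvd (by norm_num) h2
  have h4 : S.card = 2 := by omega
  refine ⟨h4, ?_⟩
  rw [h4] at hmul
  have h5 : e * f = 1 := by omega
  exact Nat.eq_one_of_mul_eq_one_left h5

theorem fib_inert {v : Place k K} {S : Finset (Place k L)} {e f : ℕ}
    (D : GaloisFiber v S e f) (hn : finrank K L = 2) {u : K} (hu : u ≠ 0) {θ : L}
    (hθ : θ ^ 2 = algebraMap K L u) (hns : ∀ s : K, u ≠ s ^ 2) (hev : ¬ Odd (v.ord u))
    (h : ¬ LocSq v u) : S.card = 1 ∧ f = 2 := by
  obtain ⟨w, hw⟩ := D.nonempty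
  have hov := D.isOver w hw
  have hmul := D.mul
  rw [hn] at hmul
  have hc : 0 < S.card := Finset.card_pos.2 D.nonempty
  have hf1 : f ≠ 1 := by
    intro hf
    apply h
    have hdeg := D.deg w hw
    rw [hf, mul_one] at hdeg
    have hpos : 0 < v.deg := H525R3.FFp.deg_pos v
    obtain ⟨t, ht0, ht⟩ := exists_half hev
    have hθ0 : θ ≠ 0 := by
      intro h0
      rw [h0] at hθ
      apply hu
      apply (algebraMap K L).injective
      rw [← hθ, map_zero]
      ring
    have htL : algebraMap K L t ≠ 0 := (_root_.map_ne_zero _).2 ht0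
    set η : L := θ / algebraMap K L t with hη
    have hη0 : η ≠ 0 := div_ne_zero hθ0 htL
    have hηo : w.ord η = 0 := by
      rw [hη, w.ord_div hθ0 htL, hov.2]
      have h1 := hov.2 u
      rw [← hθ, w.ord_pow, ht] at h1
      push_cast at h1
      have h2 : (e : ℤ) * (2 * v.ord t) = 2 * (e * v.ord t) := by ring
      rw [h2] at h1
      omega
    have hηr : w.Reg η := Or.inr hηo.ge
    obtain ⟨r, hr⟩ := resMap_surj hov hdeg hpos (w.red η)
    obtain ⟨s, hs, hsr⟩ := v.red_surjective r
    have hsL := hov.reg.2 hs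
    have h1 : w.red (η - algebraMap K L s) = 0 := by
      rw [w.red_sub hηr hsL, ← hr, ← hsr, hov.resMap_red hs, sub_self]
    have hreg : w.Reg (η - algebraMap K L s) := by
      rw [sub_eq_add_neg]
      exact w.reg_add hηr (w.reg_neg hsL)
    refine ⟨t * s, Or.inr ?_⟩
    have hne : u / t ^ 2 - s ^ 2 ≠ 0 := by
      intro h2
      apply hns (t * s)
      have h3 : u = t ^ 2 * (u / t ^ 2) := by
        field_simp
      rw [h3, sub_eq_zero.1 h2]
      ring
    have e1 : algebraMap K L (u / t ^ 2 - s ^ 2) =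
        (η - algebraMap K L s) * (η + algebraMap K L s) := by
      rw [map_sub, map_pow, map_div₀, map_pow, ← hθ, hη]
      field_simp
      ring
    have e2 : Sm w 1 (algebraMap K L (u / t ^ 2 - s ^ 2)) := by
      rw [e1]
      have h3 := sm_mul w (sm_of_red hreg h1) (sm_reg (w.reg_add hηr hsL))
      rwa [add_zero] at h3
    have e3 := e2.resolve_left ((_root_.map_ne_zero _).2 hne)
    rw [hov.2] at e3
    have he : (0 : ℤ) < e := by exact_mod_cast hov.1
    have e4 : 0 < v.ord (u / t ^ 2 - s ^ 2) := by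
      by_contra h4
      push Not at h4
      have := mul_nonpos_of_nonneg_of_nonpos he.le h4
      omega
    have e5 : u - (t * s) ^ 2 = t ^ 2 * (u / t ^ 2 - s ^ 2) := by
      field_simp
    rw [e5, v.ord_mul (pow_ne_zero 2 ht0) hne, v.ord_pow, ht]
    push_cast
    omega
  have h2 : f ∣ 2 := ⟨S.card * e, by rw [← hmul]; ring⟩
  have h3 : f ≤ 2 := Nat.le_of_dvd (by norm_num) h2
  have hf0 : f ≠ 0 := by
    rintro rfl
    simp at hmul
  have h4 : f = 2 := by omega
  refine ⟨?_, h4⟩
  rw [h4] at hmul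
  have h5 : S.card * e = 1 := by nlinarith [hmul]
  exact Nat.eq_one_of_mul_eq_one_right h5

/-- the product over the fibre -/
theorem fib_prod (h6 : (6 : k) ≠ 0) {v : Place k K} {S : Finset (Place k L)} {e f : ℕ}
    (D : GaloisFiber v S e f) (hn : finrank K L = 2) {u : K} (hu : u ≠ 0) {θ : L}
    (hθ : θ ^ 2 = algebraMap K L u) (hns : ∀ s : K, u ≠ s ^ 2) :
    ∏ w ∈ S, (1 - X ^ w.deg : PowerSeries ℤ) =
      (1 - X ^ v.deg) * (1 - C (chi v u) * X ^ v.deg) := by
  classical
  have h1 : ∏ w ∈ S, (1 - X ^ w.deg : PowerSeries ℤ) = (1 - X ^ (v.deg * f)) ^ S.card := by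
    rw [← Finset.prod_const]
    exact Finset.prod_congr rfl fun w hw => by rw [D.deg w hw]
  rw [h1]
  unfold chi
  by_cases ho : Odd (v.ord u)
  · obtain ⟨c1, c2⟩ := fib_odd D hn hu hθ ho
    rw [if_pos ho, c1, c2, map_zero, zero_mul, sub_zero, mul_one, mul_one, pow_one]
  rw [if_neg ho]
  by_cases hl : LocSq v u
  · obtain ⟨c1, c2⟩ := fib_split h6 D hn hu hθ hns hl
    rw [if_pos hl, c1, c2, map_one, one_mul, mul_one, pow_two]
  · obtain ⟨c1, c2⟩ := fib_inert D hn hu hθ hns ho hl
    rw [if_neg hl, c1, c2, map_neg, map_one, pow_one, pow_mul]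
    ring

theorem mod_of_mul (a : ℤ) (d : ℕ) :
    (X : PowerSeries ℤ) ^ d ∣ (1 - C a * X ^ d) - 1 := by
  rw [sub_right_comm, sub_self, zero_sub, dvd_neg]
  exact dvd_mul_left _ _

/-- the comparison of the zeta functions -/
theorem zeta_rel (h6 : (6 : k) ≠ 0) (hn : finrank K L = 2) {u : K} (hu : u ≠ 0) {θ : L}
    (hθ : θ ^ 2 = algebraMap K L u) (hns : ∀ s : K, u ≠ s ^ 2) {P Q : Polynomial ℤ}
    (hP : IsZetaNumRel k K P) (hQ : IsZetaNumRel k L Q) (hr : constDeg k K = 1)
    (hr' : constDeg k L = 1) :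
    (Q : PowerSeries ℤ) * eulerProd (fun v : Place k K => v.deg)
      (fun v => 1 - C (chi v u) * X ^ v.deg) = (P : PowerSeries ℤ) := by
  have hD := fun v : Place k K => exists_galoisFiber (L := L) v
  choose S e f D using hD
  have hfin := fun n => places_fin (k := k) (K := K) n
  have h1 : eulerProd (fun w : Place k L => w.deg) (fun w => (1 - X ^ w.deg : PowerSeries ℤ)) =
      eulerProd (fun v : Place k K => v.deg) (fun v => (1 - X ^ v.deg : PowerSeries ℤ)) *
      eulerProd (fun v : Place k K => v.deg) (fun v => 1 - C (chi v u) * X ^ v.deg) := by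
    rw [← euler_fiber D (g := fun w => (1 - X ^ w.deg : PowerSeries ℤ)) (fun w => by
      rw [sub_right_comm, sub_self, zero_sub]; exact (dvd_neg).2 dvd_rfl)]
    rw [← eulerProd_mul hfin (fun v => by
      rw [sub_right_comm, sub_self, zero_sub]; exact (dvd_neg).2 dvd_rfl)
      (fun v => mod_of_mul _ _)]
    congr 1
    funext v
    exact fib_prod h6 (D v) hn hu hθ hns
  unfold IsZetaNumRel at hP hQ
  rw [hr] at hP
  rw [hr', ← hP, h1] at hQ
  have hE : eulerProd (fun v : Place k K => v.deg) (fun v => (1 - X ^ v.deg : PowerSeries ℤ)) ≠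
      0 := by
    intro h0
    rw [h0, mul_zero] at hP
    have h2 := congrArg (constantCoeff (R := ℤ)) hP
    simp at h2
  apply mul_right_cancel₀ hE
  rw [← hQ]
  ring

end fib

end Pool.Agent.TH639.B3
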