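import Pool.Agent.TH943.TT.Bd
import Pool.Agent.W309.T3.Count

/-!
The reductions of an elliptic curve with a rational point of order three.
-/

set_option autoImplicit false
set_option linter.all false
set_option maxHeartbeats 4000000

open FF Module

namespace Pool.Agent.TH639.B3

open Pool.Agent.W343.BSD Pool.Agent.W309.T3 Pool.Agent.H123R3.ZT Pool.Agent.W313.Gr

/-- `y ^ 2 = x ^ 3 + a x + b` is `y ^ 2 = x ^ 3 + (α x + β) ^ 2` after a translation of `x` -/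
def IsT3 {R : Type} [CommRing R] (a b α β : R) : Prop :=
  3 * a = 6 * α * β - α ^ 4 ∧ 27 * b = 27 * β ^ 2 - 18 * α ^ 3 * β + 2 * α ^ 6

section alg

variable {F : Type} [Field F]

theorem isT3_disc {a b α β : F} (h3 : (3 : F) ≠ 0) (h : IsT3 a b α β) :
    4 * a ^ 3 + 27 * b ^ 2 = -(β ^ 3 * (4 * α ^ 3 - 27 * β)) := by
  obtain ⟨h1, h2⟩ := h
  have h27 : (27 : F) ≠ 0 := by
    have : (27 : F) = 3 ^ 3 := by norm_num
    rw [this]; exact pow_ne_zero 3 h3
  apply mul_left_cancel₀ h27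
  have e1 : 27 * (4 * a ^ 3 + 27 * b ^ 2) = 4 * (3 * a) ^ 3 + (27 * b) ^ 2 := by ring
  rw [e1, h1, h2]
  ring

theorem isT3_scale {a b α β : F} (c : F) (h : IsT3 a b α β) :
    IsT3 (c ^ 4 * a) (c ^ 6 * b) (c * α) (c ^ 3 * β) := by
  obtain ⟨h1, h2⟩ := h
  constructor
  · linear_combination c ^ 4 * h1
  · linear_combination c ^ 6 * h2

/-- the same number of points -/
theorem count_T3 (h3 : (3 : F) ≠ 0) {a b α β : F} (h : IsT3 a b α β) :
    Nat.card (Sol F a b) = Nat.card (TS 1 α β) := by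
  obtain ⟨h1, h2⟩ := h
  have h27 : (27 : F) ≠ 0 := by
    have : (27 : F) = 3 ^ 3 := by norm_num
    rw [this]; exact pow_ne_zero 3 h3
  have key : ∀ x y : F, 27 * (y ^ 2 - ((x + α ^ 2 / 3) ^ 3 + a * (x + α ^ 2 / 3) + b)) =
      27 * (y ^ 2 - (x ^ 3 + 1 * (α * x + β) ^ 2)) := by
    intro x y
    have e : α ^ 2 / 3 * 3 = α ^ 2 := by field_simp
    set s := α ^ 2 / 3 with hs
    have e2 : 27 * s ^ 3 = α ^ 6 := by
      have : 27 * s ^ 3 = (s * 3) ^ 3 := by ring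
      rw [this, e]; ring
    have e3 : 27 * s ^ 2 = 3 * α ^ 4 := by
      have : 27 * s ^ 2 = 3 * (s * 3) ^ 2 := by ring
      rw [this, e]; ring
    have e4 : 27 * s = 9 * α ^ 2 := by linear_combination 9 * e
    linear_combination (-1 : F) * h2 - 9 * (x + s) * h1 - e2 - 3 * x * e3 - (3 * x ^ 2 + 2 * α * β) * e4 + 3 * α ^ 4 * e
  symm
  refine Nat.card_congr
    { toFun := fun P => ⟨(P.1.1 + α ^ 2 / 3, P.1.2), ?_⟩
      invFun := fun P => ⟨(P.1.1 - α ^ 2 / 3, P.1.2), ?_⟩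
      left_inv := ?_
      right_inv := ?_ }
  · have hk := key P.1.1 P.1.2
    have h4 := P.2
    rw [← sub_eq_zero] at h4 ⊢
    show P.1.2 ^ 2 - _ = 0
    apply mul_left_cancel₀ h27
    rw [hk, h4]
  · have hk := key (P.1.1 - α ^ 2 / 3) P.1.2
    rw [sub_add_cancel] at hk
    have h4 := P.2
    rw [← sub_eq_zero] at h4 ⊢
    show P.1.2 ^ 2 - _ = 0
    apply mul_left_cancel₀ h27
    rw [← hk, h4]
  · intro P
    apply Subtype.ext
    apply Prod.ext
    · show P.1.1 + α ^ 2 / 3 - α ^ 2 / 3 = P.1.1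
      ring
    · rfl
  · intro P
    apply Subtype.ext
    apply Prod.ext
    · show P.1.1 - α ^ 2 / 3 + α ^ 2 / 3 = P.1.1
      ring
    · rfl

/-- from the point of order three -/
theorem isT3_of_point (h2 : (2 : F) ≠ 0) {a b x y : F} (hy : y ≠ 0) (hP : y ^ 2 = x ^ 3 + a * x + b)
    (h3 : 3 * x ^ 4 + 6 * a * x ^ 2 + 12 * b * x - a ^ 2 = 0) :
    IsT3 a b ((3 * x ^ 2 + a) / (2 * y)) y := by
  set α := (3 * x ^ 2 + a) / (2 * y) with hα
  have h2y : (2 * y) ≠ 0 := mul_ne_zero h2 hy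
  have e1 : α * (2 * y) = 3 * x ^ 2 + a := by rw [hα, div_mul_cancel₀ _ h2y]
  have e2 : α ^ 2 = 3 * x := by
    apply mul_right_cancel₀ (pow_ne_zero 2 h2y)
    have : α ^ 2 * (2 * y) ^ 2 = (α * (2 * y)) ^ 2 := by ring
    rw [this, e1]
    linear_combination -h3 - 12 * x * hP
  have e4 : α ^ 4 = 9 * x ^ 2 := by
    have : α ^ 4 = (α ^ 2) ^ 2 := by ring
    rw [this, e2]; ring
  have e6 : α ^ 6 = 27 * x ^ 3 := by
    have : α ^ 6 = (α ^ 2) ^ 3 := by ring
    rw [this, e2]; ring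
  constructor
  · linear_combination -3 * e1 + e4
  · have e5 : α ^ 3 * y * 2 = 3 * x * (3 * x ^ 2 + a) := by
      have : α ^ 3 * y * 2 = α ^ 2 * (α * (2 * y)) := by ring
      rw [this, e1, e2]
    linear_combination -27 * hP + 9 * e5 - 2 * e6

end alg

end Pool.Agent.TH639.B3
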