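import Pool.Agent.TH639.B3.Loc

/-!
The places of bad reduction of an elliptic curve with a rational point of order three.
-/

set_option autoImplicit false
set_option linter.all false
set_option maxHeartbeats 4000000

open FF Module

namespace Pool.Agent.TH639.B3

open Pool.Agent.W343.BSD Pool.Agent.W309.T3 Pool.Agent.H123R3.ZT Pool.Agent.W313.Gr

section reg

variable {k K : Type} [Field k] [Field K] [Algebra k K] {v : Place k K}

theorem sm_reg {x : K} (h : v.Reg x) : Sm v 0 x := by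
  rcases h with h | h
  · exact Or.inl h
  · exact Or.inr h

theorem sm_pow {N : ℤ} {x : K} (h : Sm v N x) (n : ℕ) : Sm v (n * N) (x ^ n) := by
  rcases h with rfl | h
  · rcases Nat.eq_zero_or_pos n with rfl | hn
    · right
      simp [v.ord_one]
    · left
      exact zero_pow hn.ne'
  · right
    rw [v.ord_pow]
    exact mul_le_mul_of_nonneg_left h (Int.natCast_nonneg n)

theorem reg_alpha {a b α β : K} (h : IsT3 a b α β) (ha : v.Reg a) (hb : v.Reg b) : v.Reg α := by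
  obtain ⟨h1, h2⟩ := h
  have hrel : α ^ 8 = -(((18 : ℕ) : K) * a * α ^ 4 + ((108 : ℕ) : K) * b * α ^ 2 +
      ((27 : ℕ) : K) * -(a ^ 2)) := by
    push_cast
    linear_combination 6 * α ^ 4 * h1 + 4 * α ^ 2 * h2 - 3 * (3 * a + 6 * α * β - α ^ 4) * h1
  by_contra hx
  unfold Place.Reg at hx
  push Not at hx
  have hsα := sm_ord v α
  have e1 : Sm v (4 * v.ord α) (((18 : ℕ) : K) * a * α ^ 4) := by
    have h4 := sm_pow hsα 4
    have h5 := sm_mul v (sm_reg (v.reg_mul (reg_nat 18) ha)) h4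
    refine sm_mono v ?_ h5
    push_cast
    omega
  have e2 : Sm v (4 * v.ord α) (((108 : ℕ) : K) * b * α ^ 2) := by
    have h4 := sm_pow hsα 2
    have h5 := sm_mul v (sm_reg (v.reg_mul (reg_nat 108) hb)) h4
    refine sm_mono v ?_ h5
    push_cast
    omega
  have e3 : Sm v (4 * v.ord α) (((27 : ℕ) : K) * -(a ^ 2)) := by
    refine sm_mono v ?_ (sm_reg (v.reg_mul (reg_nat 27) (v.reg_neg (reg_pow ha 2))))
    omega
  have e4 := sm_neg v (sm_add v (sm_add v e1 e2) e3)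
  rw [← hrel] at e4
  have h4 := e4.resolve_left (pow_ne_zero 8 hx.1)
  rw [v.ord_pow] at h4
  push_cast at h4
  omega

theorem reg_beta (h3 : (3 : k) ≠ 0) {a b α β : K} (h : IsT3 a b α β) (ha : v.Reg a)
    (hb : v.Reg b) : v.Reg β := by
  have hα := reg_alpha h ha hb
  obtain ⟨h1, h2⟩ := h
  have hrel : (27 * β) ^ 2 = ((18 : ℕ) : K) * α ^ 3 * (27 * β) +
      (((729 : ℕ) : K) * b + ((54 : ℕ) : K) * -(α ^ 6)) := by
    push_cast
    linear_combination -27 * h2
  have h27 : v.Reg (27 * β) := by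
    by_contra hx
    unfold Place.Reg at hx
    push Not at hx
    have e1 : Sm v (v.ord (27 * β)) (((18 : ℕ) : K) * α ^ 3 * (27 * β)) := by
      have h5 := sm_mul v (sm_reg (v.reg_mul (reg_nat 18) (reg_pow hα 3))) (sm_ord v (27 * β))
      refine sm_mono v ?_ h5
      omega
    have e2 : Sm v (v.ord (27 * β)) (((729 : ℕ) : K) * b + ((54 : ℕ) : K) * -(α ^ 6)) := by
      refine sm_mono v ?_ (sm_reg (v.reg_add (v.reg_mul (reg_nat 729) hb)
        (v.reg_mul (reg_nat 54) (v.reg_neg (reg_pow hα 6)))))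
      omega
    have e3 := sm_add v e1 e2
    rw [← hrel] at e3
    have h4 := e3.resolve_left (pow_ne_zero 2 hx.1)
    rw [v.ord_pow] at h4
    push_cast at h4
    omega
  have hinv : v.Reg ((27 : K)⁻¹) := by
    have := v.reg_const ((27 : k)⁻¹)
    rwa [map_inv₀, map_ofNat] at this
  have h27K : (27 : K) ≠ 0 := by
    have : (27 : K) = algebraMap k K (3 ^ 3) := by
      rw [map_pow, map_ofNat]; norm_num
    rw [this]
    exact (_root_.map_ne_zero _).2 (pow_ne_zero 3 h3)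
  have := v.reg_mul hinv h27
  rwa [← mul_assoc, inv_mul_cancel₀ h27K, one_mul] at this

theorem red_isT3 {a b α β : K} (h : IsT3 a b α β) (ha : v.Reg a) (hb : v.Reg b) (hα : v.Reg α)
    (hβ : v.Reg β) : IsT3 (v.red a) (v.red b) (v.red α) (v.red β) := by
  obtain ⟨h1, h2⟩ := h
  have n3 : v.red (3 : K) = 3 := by
    have := red_nat (v := v) 3
    exact_mod_cast this
  have n6 : v.red (6 : K) = 6 := by
    have := red_nat (v := v) 6
    exact_mod_cast this
  have n27 : v.red (27 : K) = 27 := by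
    have := red_nat (v := v) 27
    exact_mod_cast this
  have n18 : v.red (18 : K) = 18 := by
    have := red_nat (v := v) 18
    exact_mod_cast this
  have n2 : v.red (2 : K) = 2 := by
    have := red_nat (v := v) 2
    exact_mod_cast this
  have r3 : v.Reg (3 : K) := reg_nat 3
  have r6 : v.Reg (6 : K) := reg_nat 6
  have r27 : v.Reg (27 : K) := reg_nat 27
  have r18 : v.Reg (18 : K) := reg_nat 18
  have r2 : v.Reg (2 : K) := reg_nat 2
  constructor
  · have h3 := congrArg v.red h1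
    rw [sub_eq_add_neg, v.red_mul r3 ha,
      v.red_add (v.reg_mul (v.reg_mul r6 hα) hβ) (v.reg_neg (reg_pow hα 4)),
      v.red_mul (v.reg_mul r6 hα) hβ, v.red_mul r6 hα, v.red_neg (reg_pow hα 4), v.red_pow hα,
      n3, n6] at h3
    rw [h3]
    ring
  · have h3 := congrArg v.red h2
    rw [sub_eq_add_neg, v.red_mul r27 hb,
      v.red_add (v.reg_add (v.reg_mul r27 (reg_pow hβ 2))
        (v.reg_neg (v.reg_mul (v.reg_mul r18 (reg_pow hα 3)) hβ))) (v.reg_mul r2 (reg_pow hα 6)),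
      v.red_add (v.reg_mul r27 (reg_pow hβ 2))
        (v.reg_neg (v.reg_mul (v.reg_mul r18 (reg_pow hα 3)) hβ)),
      v.red_neg (v.reg_mul (v.reg_mul r18 (reg_pow hα 3)) hβ),
      v.red_mul r27 (reg_pow hβ 2), v.red_mul (v.reg_mul r18 (reg_pow hα 3)) hβ,
      v.red_mul r18 (reg_pow hα 3), v.red_mul r2 (reg_pow hα 6), v.red_pow hα, v.red_pow hα,
      v.red_pow hβ, n27, n18, n2] at h3
    rw [h3]
    ring

end reg

section cls

variable {k K : Type} [Field k] [Finite k] [Field K] [Algebra k K] [FF.IsFF k K] {v : Place k K}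

/-- a scaling of the parameters which stays regular -/
structure Sc (v : Place k K) (a b α β c : K) : Prop where
  t : IsT3 a b α β
  c0 : c ≠ 0
  ra : v.Reg (c * α)
  rb : v.Reg (c ^ 3 * β)

theorem Sc.regA (h3 : (3 : k) ≠ 0) {a b α β c : K} (h : Sc v a b α β c) : v.Reg (c ^ 4 * a) := by
  have h1 := (isT3_scale c h.t).1
  have hinv : v.Reg ((3 : K)⁻¹) := by
    have := v.reg_const ((3 : k)⁻¹)
    rwa [map_inv₀, map_ofNat] at this
  have h3K : (3 : K) ≠ 0 := by
    have : (3 : K) = algebraMap k K 3 := by rw [map_ofNat]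
    rw [this]
    exact (_root_.map_ne_zero _).2 h3
  have h2 : v.Reg (3 * (c ^ 4 * a)) := by
    rw [h1, sub_eq_add_neg]
    exact v.reg_add (v.reg_mul (v.reg_mul (reg_nat 6) h.ra) h.rb) (v.reg_neg (reg_pow h.ra 4))
  have := v.reg_mul hinv h2
  rwa [← mul_assoc, inv_mul_cancel₀ h3K, one_mul] at this

theorem Sc.regB (h3 : (3 : k) ≠ 0) {a b α β c : K} (h : Sc v a b α β c) : v.Reg (c ^ 6 * b) := by
  have h1 := (isT3_scale c h.t).2
  have hinv : v.Reg ((27 : K)⁻¹) := by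
    have := v.reg_const ((27 : k)⁻¹)
    rwa [map_inv₀, map_ofNat] at this
  have h3K : (27 : K) ≠ 0 := by
    have : (27 : K) = algebraMap k K (3 ^ 3) := by
      rw [map_pow, map_ofNat]; norm_num
    rw [this]
    exact (_root_.map_ne_zero _).2 (pow_ne_zero 3 h3)
  have h2 : v.Reg (27 * (c ^ 6 * b)) := by
    rw [h1, sub_eq_add_neg]
    exact v.reg_add (v.reg_add (v.reg_mul (reg_nat 27) (reg_pow h.rb 2))
      (v.reg_neg (v.reg_mul (v.reg_mul (reg_nat 18) (reg_pow h.ra 3)) h.rb)))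
      (v.reg_mul (reg_nat 2) (reg_pow h.ra 6))
  have := v.reg_mul hinv h2
  rwa [← mul_assoc, inv_mul_cancel₀ h3K, one_mul] at this

theorem Sc.red (h3 : (3 : k) ≠ 0) {a b α β c : K} (h : Sc v a b α β c) :
    IsT3 (v.red (c ^ 4 * a)) (v.red (c ^ 6 * b)) (v.red (c * α)) (v.red (c ^ 3 * β)) :=
  red_isT3 (isT3_scale c h.t) (h.regA h3) (h.regB h3) h.ra h.rb

theorem n3 (h3 : (3 : k) ≠ 0) (v : Place k K) : (3 : v.RF) ≠ 0 := by
  have := ne_RF v (n := 3) (by exact_mod_cast h3)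
  exact_mod_cast this

/-- the reduction is not a cusp unless both parameters reduce to zero -/
theorem ab_ne {F : Type} [Field F] (h3 : (3 : F) ≠ 0) {a b α β : F} (h : IsT3 a b α β)
    (h0 : α ≠ 0 ∨ β ≠ 0) : a ≠ 0 ∨ b ≠ 0 := by
  obtain ⟨h1, h2⟩ := h
  by_contra hcon
  push Not at hcon
  rw [hcon.1, mul_zero] at h1
  rw [hcon.2, mul_zero] at h2
  have h9 : (9 : F) ≠ 0 := by
    have : (9 : F) = 3 ^ 2 := by norm_num
    rw [this]; exact pow_ne_zero 2 h3
  have h27 : (27 : F) ≠ 0 := by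
    have : (27 : F) = 3 ^ 3 := by norm_num
    rw [this]; exact pow_ne_zero 3 h3
  by_cases hα : α = 0
  · have hβ := h0.resolve_left (fun h => h hα)
    rw [hα] at h2
    apply mul_ne_zero h27 (pow_ne_zero 2 hβ)
    linear_combination -h2
  · have h4 : α * (6 * β - α ^ 3) = 0 := by linear_combination -h1
    have h5 : 6 * β - α ^ 3 = 0 := (mul_eq_zero.1 h4).resolve_left hα
    have h6 : 9 * β ^ 2 = 0 := by
      linear_combination h2 + (18 * β - 2 * α ^ 3 - 12 * β) * h5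
    have hβ : β = 0 := by
      rcases mul_eq_zero.1 h6 with h7 | h7
      · exact absurd h7 h9
      · exact pow_eq_zero_iff (two_ne_zero) |>.1 h7
    apply hα
    rw [hβ] at h5
    apply pow_eq_zero_iff (three_ne_zero) |>.1
    linear_combination -h5

theorem Sc.isMin (h3 : (3 : k) ≠ 0) {a b α β c : K} (h : Sc v a b α β c)
    (h0 : v.red (c * α) ≠ 0 ∨ v.red (c ^ 3 * β) ≠ 0) : IsMinScale v a b c := by
  refine ⟨h.c0, h.regA h3, h.regB h3, ?_⟩
  rintro ⟨h1, h2⟩
  have h4 := ab_ne (n3 h3 v) (h.red h3) h0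
  rw [Ne, Ne, v.red_eq_zero_iff (h.regA h3), v.red_eq_zero_iff (h.regB h3)] at h4
  push Not at h4
  rcases h4 with h4 | h4
  · have h5 : a ≠ 0 := right_ne_zero_of_mul h4.1
    have := h1.resolve_left h5
    omega
  · have h5 : b ≠ 0 := right_ne_zero_of_mul h4.1
    have := h2.resolve_left h5
    omega

theorem Sc.trace (h3 : (3 : k) ≠ 0) {a b α β c : K} (h : Sc v a b α β c) (hab : a ≠ 0 ∨ b ≠ 0)
    (h0 : IsMinScale v a b c) : S.trace v a b = (Nat.card v.RF : ℤ) -
      Nat.card (TS 1 (v.red (c * α)) (v.red (c ^ 3 * β))) := by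
  rw [S.trace_eq, trace_of_min v hab h0, count_T3 (n3 h3 v) (h.red h3)]

theorem ord_disc_zero_iff {a b c : K} (hΔ : 4 * a ^ 3 + 27 * b ^ 2 ≠ 0)
    (h0 : IsMinScale v a b c) : v.ord (minDisc v a b) = 0 ↔
      4 * v.red (c ^ 4 * a) ^ 3 + 27 * v.red (c ^ 6 * b) ^ 2 ≠ 0 := by
  have h1 := ord_minDisc_of_min v hΔ h0
  have e : 4 * (c ^ 4 * a) ^ 3 + 27 * (c ^ 6 * b) ^ 2 = c ^ 12 * (4 * a ^ 3 + 27 * b ^ 2) := by ring
  have h2 : v.ord (4 * (c ^ 4 * a) ^ 3 + 27 * (c ^ 6 * b) ^ 2) = v.ord (minDisc v a b) := by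
    rw [h1, e, v.ord_mul (pow_ne_zero 12 h0.1) hΔ, v.ord_pow]
    push_cast
    rfl
  have hne : 4 * (c ^ 4 * a) ^ 3 + 27 * (c ^ 6 * b) ^ 2 ≠ 0 := by
    rw [e]
    exact mul_ne_zero (pow_ne_zero 12 h0.1) hΔ
  have hreg : v.Reg (4 * (c ^ 4 * a) ^ 3 + 27 * (c ^ 6 * b) ^ 2) :=
    v.reg_add (v.reg_mul reg_four (reg_pow h0.2.1 3)) (v.reg_mul (reg_nat 27) (reg_pow h0.2.2.1 2))
  rw [← red_disc h0.2.1 h0.2.2.1, ← h2, Ne, v.red_eq_zero_iff hreg]
  have h5 := (v.reg_iff hne).1 hreg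
  constructor
  · rintro h (h6 | h6)
    · exact hne h6
    · omega
  · intro h
    by_contra h6
    exact h (Or.inr (by omega))

/-- the discriminant of the reduction -/
theorem Sc.disc (h3 : (3 : k) ≠ 0) {a b α β c : K} (h : Sc v a b α β c)
    (hΔ : 4 * a ^ 3 + 27 * b ^ 2 ≠ 0) (h0 : IsMinScale v a b c) :
    v.ord (minDisc v a b) = 0 ↔ (v.red (c ^ 3 * β) ≠ 0 ∧
      4 * v.red (c * α) ^ 3 ≠ 27 * v.red (c ^ 3 * β)) := by
  rw [ord_disc_zero_iff hΔ h0, isT3_disc (n3 h3 v) (h.red h3)]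
  constructor
  · intro h1
    constructor
    · rintro h2
      rw [h2] at h1
      apply h1
      ring
    · intro h2
      rw [h2] at h1
      apply h1
      ring
  · rintro ⟨h1, h2⟩
    exact neg_ne_zero.2 (mul_ne_zero (pow_ne_zero 3 h1) (sub_ne_zero.2 h2))

theorem n2' (h6 : (6 : k) ≠ 0) (v : Place k K) : (2 : v.RF) ≠ 0 := by
  have := ne_RF v (two_ne h6)
  exact_mod_cast this

theorem h3_of (h6 : (6 : k) ≠ 0) : (3 : k) ≠ 0 := by
  have := three_ne h6
  exact_mod_cast this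

/-- good reduction -/
theorem Sc.good (h6 : (6 : k) ≠ 0) {a b α β c : K} (h : Sc v a b α β c)
    (hab : a ≠ 0 ∨ b ≠ 0) (h0 : IsMinScale v a b c) (h1 : v.red (c ^ 3 * β) ≠ 0)
    (h2 : 4 * v.red (c * α) ^ 3 ≠ 27 * v.red (c ^ 3 * β)) :
    (3 : ℤ) ∣ Nat.card (S.Res v) + 1 - S.trace v a b := by
  have h4 := count_good (n2' h6 v) h1 h2
  rw [h.trace (h3_of h6) hab h0]
  have e : (Nat.card (S.Res v) : ℤ) + 1 - ((Nat.card v.RF : ℤ) -
      Nat.card (TS 1 (v.red (c * α)) (v.red (c ^ 3 * β)))) =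
      ((Nat.card (TS 1 (v.red (c * α)) (v.red (c ^ 3 * β))) + 1 : ℕ) : ℤ) := by
    push_cast
    have : (Nat.card (S.Res v) : ℤ) = Nat.card v.RF := rfl
    rw [this]
    ring
  rw [e]
  exact_mod_cast h4

/-- the node away from the point of order three -/
theorem Sc.node (h6 : (6 : k) ≠ 0) {a b α β c : K} (h : Sc v a b α β c)
    (hab : a ≠ 0 ∨ b ≠ 0) (h0 : IsMinScale v a b c) (h1 : v.red (c ^ 3 * β) ≠ 0)
    (h2 : 4 * v.red (c * α) ^ 3 = 27 * v.red (c ^ 3 * β)) :
    (3 : ℤ) ∣ Nat.card (S.Res v) - S.trace v a b := by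
  have h4 := count_node (n2' h6 v) (n3 (h3_of h6) v) h1 h2
  rw [h.trace (h3_of h6) hab h0]
  have e : (Nat.card (S.Res v) : ℤ) - ((Nat.card v.RF : ℤ) -
      Nat.card (TS 1 (v.red (c * α)) (v.red (c ^ 3 * β)))) =
      ((Nat.card (TS 1 (v.red (c * α)) (v.red (c ^ 3 * β))) : ℕ) : ℤ) := by
    have : (Nat.card (S.Res v) : ℤ) = Nat.card v.RF := rfl
    rw [this]
    ring
  rw [e]
  exact_mod_cast h4

/-- the node at the point of order three -/
theorem Sc.split (h6 : (6 : k) ≠ 0) {a b α β c : K} (h : Sc v a b α β c)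
    (hab : a ≠ 0 ∨ b ≠ 0) (h1 : v.red (c ^ 3 * β) = 0)
    (h2 : v.red (c * α) ≠ 0) : S.trace v a b = 1 := by
  have h0 := h.isMin (h3_of h6) (Or.inl h2)
  have h4 := count_split (n2' h6 v) h2
  rw [h.trace (h3_of h6) hab h0, h1]
  have : (Nat.card v.RF : ℤ) = Nat.card (TS 1 (v.red (c * α)) 0) + 1 := by exact_mod_cast h4.symm
  rw [this]
  ring

/-- the cusp -/
theorem Sc.cusp (h6 : (6 : k) ≠ 0) {a b α β c : K} (h : Sc v a b α β c)
    (hab : a ≠ 0 ∨ b ≠ 0) (h0 : IsMinScale v a b c) (h1 : v.red (c ^ 3 * β) = 0)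
    (h2 : v.red (c * α) = 0) : S.trace v a b = 0 := by
  rw [h.trace (h3_of h6) hab h0, h1, h2, count_cusp, sub_self]

/-- the trace at the node away from the point of order three -/
theorem Sc.node_pm (h6 : (6 : k) ≠ 0) {a b α β c : K} (h : Sc v a b α β c)
    (hΔ : 4 * a ^ 3 + 27 * b ^ 2 ≠ 0) (h0 : IsMinScale v a b c)
    (h1 : v.red (c ^ 3 * β) ≠ 0)
    (h2 : 4 * v.red (c * α) ^ 3 = 27 * v.red (c ^ 3 * β)) :
    S.trace v a b = 1 ∨ S.trace v a b = -1 := by
  have h3 := h3_of h6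
  have h3' := n3 h3 v
  have hab := ab_of_disc hΔ
  -- the coefficient `a` does not reduce to zero
  have hA : v.red (c ^ 4 * a) ≠ 0 := by
    intro hA0
    obtain ⟨e1, -⟩ := h.red h3
    rw [hA0, mul_zero] at e1
    set x := v.red (c * α)
    set y := v.red (c ^ 3 * β)
    have hx : x ≠ 0 := by
      intro hx
      rw [hx] at h2
      have h27 : (27 : v.RF) ≠ 0 := by
        have : (27 : v.RF) = 3 ^ 3 := by norm_num
        rw [this]; exact pow_ne_zero 3 h3'
      apply mul_ne_zero h27 h1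
      rw [← h2]; ring
    have h4 : x * (6 * y - x ^ 3) = 0 := by linear_combination -e1
    have h5 : 6 * y - x ^ 3 = 0 := (mul_eq_zero.1 h4).resolve_left hx
    apply mul_ne_zero h3' h1
    linear_combination -h2 - 4 * h5
  have hord := ord_of_red h0.2.1 hA
  -- transfer to the chosen minimal model
  have hmin := minScale_spec v hab
  have ho := ord_eq_of_min v hab h0 hmin
  have hA' : v.red (minA v a b) ≠ 0 := by
    have ha0 : a ≠ 0 := right_ne_zero_of_mul hord.1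
    have hne : minA v a b ≠ 0 := mul_ne_zero (pow_ne_zero 4 hmin.1) ha0
    apply v.red_ne_zero hne
    have e2 : v.ord (c ^ 4 * a) = 0 := hord.2
    rw [v.ord_mul (pow_ne_zero 4 h0.1) ha0, v.ord_pow] at e2
    unfold minA
    rw [v.ord_mul (pow_ne_zero 4 hmin.1) ha0, v.ord_pow, ← ho]
    exact e2
  have hD : v.red (minDisc v a b) = 0 := by
    by_contra h5
    have h6' := (S.ord_disc_iff v hΔ).2 h5
    have h7 := (h.disc h3 hΔ h0).1 h6'
    exact h7.2 h2
  rw [S.trace_eq]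
  exact TH943.TT.trace_pm h6 hΔ hD hA'

end cls

end Pool.Agent.TH639.B3
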