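import Pool.Agent.TH639.B3.Chi

/-!
Quadratic twists: traces and reductions.
-/

set_option autoImplicit false
set_option linter.all false
set_option maxHeartbeats 4000000

open FF Module

namespace Pool.Agent.TH639.B3

open Pool.Agent.W343.BSD Pool.Agent.W309.T3 Pool.Agent.H123R3.ZT Pool.Agent.W313.Gr

section count

variable {F : Type} [Field F] [Fintype F] [DecidableEq F]

/-- counting on a twist -/
theorem sol_twist (h2 : (2 : F) ≠ 0) {u : F} (hu : u ≠ 0) (A B : F) :
    (Nat.card F : ℤ) - Nat.card (Sol F (u ^ 2 * A) (u ^ 3 * B)) =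
      quadraticChar F u * ((Nat.card F : ℤ) - Nat.card (Sol F A B)) := by
  have e1 := card_char h2 (fun x => x ^ 3 + u ^ 2 * A * x + u ^ 3 * B)
  have e2 := card_char h2 (fun x => x ^ 3 + A * x + B)
  rw [Finset.sum_add_distrib, Finset.sum_const, Finset.card_univ, nsmul_eq_mul, mul_one] at e1 e2
  have h1 : (Nat.card (Sol F (u ^ 2 * A) (u ^ 3 * B)) : ℤ) = _ := e1
  have h3 : (Nat.card (Sol F A B) : ℤ) = _ := e2
  rw [h1, h3, Nat.card_eq_fintype_card]
  have h4 : ∑ x : F, quadraticChar F (x ^ 3 + u ^ 2 * A * x + u ^ 3 * B) =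
      quadraticChar F u * ∑ x : F, quadraticChar F (x ^ 3 + A * x + B) := by
    rw [Finset.mul_sum]
    refine (Fintype.sum_equiv (Equiv.mulLeft₀ u hu) _ _ fun x => ?_).symm
    show quadraticChar F u * quadraticChar F (x ^ 3 + A * x + B) =
      quadraticChar F ((u * x) ^ 3 + u ^ 2 * A * (u * x) + u ^ 3 * B)
    have h5 : (u * x) ^ 3 + u ^ 2 * A * (u * x) + u ^ 3 * B =
        u ^ 2 * (u * (x ^ 3 + A * x + B)) := by ring
    rw [h5, map_mul, map_mul, quadraticChar_sq_one' hu, one_mul]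
  rw [h4]
  ring

end count

section even

variable {k K : Type} [Field k] [Finite k] [Field K] [Algebra k K] [FF.IsFF k K] {v : Place k K}

theorem twist_disc (a b u : K) : 4 * (u ^ 2 * a) ^ 3 + 27 * (u ^ 3 * b) ^ 2 =
    u ^ 6 * (4 * a ^ 3 + 27 * b ^ 2) := by ring

/-- a minimal model of the twist by an element of even valuation -/
theorem isMin_twist {a b u t c : K} (hu : u ≠ 0) (ht0 : t ≠ 0) (ht : v.ord u = 2 * v.ord t)
    (hc : IsMinScale v a b c) : IsMinScale v (u ^ 2 * a) (u ^ 3 * b) (c / t) := by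
  obtain ⟨hc0, hA, hB, hmin⟩ := hc
  have hr0 : u / t ^ 2 ≠ 0 := div_ne_zero hu (pow_ne_zero 2 ht0)
  have hro : v.ord (u / t ^ 2) = 0 := by
    rw [v.ord_div hu (pow_ne_zero 2 ht0), v.ord_pow, ht]
    push_cast
    ring
  have hrr : v.Reg (u / t ^ 2) := Or.inr hro.ge
  have e1 : (c / t) ^ 4 * (u ^ 2 * a) = (u / t ^ 2) ^ 2 * (c ^ 4 * a) := by
    field_simp
  have e2 : (c / t) ^ 6 * (u ^ 3 * b) = (u / t ^ 2) ^ 3 * (c ^ 6 * b) := by
    field_simp
  refine ⟨div_ne_zero hc0 ht0, ?_, ?_, ?_⟩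
  · rw [e1]
    exact v.reg_mul (reg_pow hrr 2) hA
  · rw [e2]
    exact v.reg_mul (reg_pow hrr 3) hB
  · rintro ⟨h1, h2⟩
    apply hmin
    constructor
    · by_cases ha : a = 0
      · exact Or.inl ha
      · right
        have h3 := h1.resolve_left (mul_ne_zero (pow_ne_zero 2 hu) ha)
        rw [e1, v.ord_mul (pow_ne_zero 2 hr0) (mul_ne_zero (pow_ne_zero 4 hc0) ha), v.ord_pow,
          hro, mul_zero, zero_add] at h3
        exact h3
    · by_cases hb : b = 0
      · exact Or.inl hb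
      · right
        have h3 := h2.resolve_left (mul_ne_zero (pow_ne_zero 3 hu) hb)
        rw [e2, v.ord_mul (pow_ne_zero 3 hr0) (mul_ne_zero (pow_ne_zero 6 hc0) hb), v.ord_pow,
          hro, mul_zero, zero_add] at h3
        exact h3

open Classical in
theorem locSq_iff {u t : K} (hu : u ≠ 0) (ht0 : t ≠ 0) (ht : v.ord u = 2 * v.ord t) :
    LocSq v u ↔ IsSquare (v.red (u / t ^ 2)) := by
  have ht2 : t ^ 2 ≠ 0 := pow_ne_zero 2 ht0
  have hro : v.ord (u / t ^ 2) = 0 := by
    rw [v.ord_div hu ht2, v.ord_pow, ht]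
    push_cast
    ring
  have hrr : v.Reg (u / t ^ 2) := Or.inr hro.ge
  constructor
  · rintro ⟨s, hs⟩
    have hsm : Sm v 1 (u / t ^ 2 - (s / t) ^ 2) := by
      have e : u / t ^ 2 - (s / t) ^ 2 = (u - s ^ 2) / t ^ 2 := by field_simp
      rw [e]
      by_cases h0 : u - s ^ 2 = 0
      · left
        rw [h0, zero_div]
      · right
        rw [v.ord_div h0 ht2, v.ord_pow]
        rcases hs with hs | hs
        · exact absurd (sub_eq_zero.2 hs) h0
        · rw [ht] at hs
          push_cast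
          omega
    have hreg2 : v.Reg ((s / t) ^ 2) := by
      have e : (s / t) ^ 2 = u / t ^ 2 + -(u / t ^ 2 - (s / t) ^ 2) := by ring
      rw [e]
      exact v.reg_add hrr (v.reg_neg (reg_of_sm zero_le_one hsm))
    have hreg : v.Reg (s / t) := by
      by_cases h0 : s / t = 0
      · left; exact h0
      · rw [v.reg_iff (pow_ne_zero 2 h0), v.ord_pow] at hreg2
        rw [v.reg_iff h0]
        push_cast at hreg2
        omega
    refine ⟨v.red (s / t), ?_⟩
    have h1 := red_of_sm zero_lt_one hsm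
    rw [sub_eq_add_neg, v.red_add hrr (v.reg_neg hreg2), v.red_neg hreg2, v.red_pow hreg] at h1
    rw [← sub_eq_zero, ← h1]
    ring
  · rintro ⟨r, hr⟩
    obtain ⟨s, hs, rfl⟩ := v.red_surjective r
    refine ⟨t * s, ?_⟩
    have h1 : v.red (u / t ^ 2 - s ^ 2) = 0 := by
      rw [sub_eq_add_neg, v.red_add hrr (v.reg_neg (reg_pow hs 2)), v.red_neg (reg_pow hs 2),
        v.red_pow hs, hr]
      ring
    have hreg : v.Reg (u / t ^ 2 - s ^ 2) := by
      rw [sub_eq_add_neg]
      exact v.reg_add hrr (v.reg_neg (reg_pow hs 2))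
    have e5 : u - (t * s) ^ 2 = t ^ 2 * (u / t ^ 2 - s ^ 2) := by
      field_simp
    rcases sm_of_red hreg h1 with h2 | h2
    · left
      have h3 : u = t ^ 2 * (u / t ^ 2) := by field_simp
      rw [h3, sub_eq_zero.1 h2]
      ring
    · by_cases h0 : u / t ^ 2 - s ^ 2 = 0
      · left
        have h3 : u = t ^ 2 * (u / t ^ 2) := by field_simp
        rw [h3, sub_eq_zero.1 h0]
        ring
      · right
        rw [e5, v.ord_mul ht2 h0, v.ord_pow, ht]
        push_cast
        omega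

/-- the trace of the twist -/
theorem trace_twist (h6 : (6 : k) ≠ 0) {a b u : K} (hab : a ≠ 0 ∨ b ≠ 0) (hu : u ≠ 0)
    (hev : ¬ Odd (v.ord u)) :
    S.trace v (u ^ 2 * a) (u ^ 3 * b) = chi v u * S.trace v a b := by
  classical
  have : Fintype v.RF := Fintype.ofFinite _
  obtain ⟨t, ht0, ht⟩ := exists_half hev
  have hs := minScale_spec v hab
  set c := minScale v a b with hc
  have hs' := isMin_twist hu ht0 ht hs
  have hab' : u ^ 2 * a ≠ 0 ∨ u ^ 3 * b ≠ 0 := by
    rcases hab with h | h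
    · exact Or.inl (mul_ne_zero (pow_ne_zero 2 hu) h)
    · exact Or.inr (mul_ne_zero (pow_ne_zero 3 hu) h)
  have ht2 : t ^ 2 ≠ 0 := pow_ne_zero 2 ht0
  have hr0 : u / t ^ 2 ≠ 0 := div_ne_zero hu ht2
  have hro : v.ord (u / t ^ 2) = 0 := by
    rw [v.ord_div hu ht2, v.ord_pow, ht]
    push_cast
    ring
  have hrr : v.Reg (u / t ^ 2) := Or.inr hro.ge
  have e1 : (c / t) ^ 4 * (u ^ 2 * a) = (u / t ^ 2) ^ 2 * (c ^ 4 * a) := by
    field_simp
  have e2 : (c / t) ^ 6 * (u ^ 3 * b) = (u / t ^ 2) ^ 3 * (c ^ 6 * b) := by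
    field_simp
  rw [S.trace_eq, S.trace_eq, trace_of_min v hab' hs', trace_of_min v hab hs, e1, e2,
    v.red_mul (reg_pow hrr 2) hs.2.1, v.red_mul (reg_pow hrr 3) hs.2.2.1, v.red_pow hrr,
    v.red_pow hrr]
  have hub : v.red (u / t ^ 2) ≠ 0 := v.red_ne_zero hr0 hro
  have h1 := sol_twist (n2' h6 v) hub (v.red (c ^ 4 * a)) (v.red (c ^ 6 * b))
  have h2 : chi v u = quadraticChar v.RF (v.red (u / t ^ 2)) := by
    unfold chi
    rw [if_neg hev]
    by_cases hl : LocSq v u
    · rw [if_pos hl]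
      exact ((quadraticChar_one_iff_isSquare hub).2 ((locSq_iff hu ht0 ht).1 hl)).symm
    · rw [if_neg hl]
      have h3 : ¬ IsSquare (v.red (u / t ^ 2)) := fun h => hl ((locSq_iff hu ht0 ht).2 h)
      rcases quadraticChar_dichotomy hub with h4 | h4
      · exact absurd ((quadraticChar_one_iff_isSquare hub).1 h4) h3
      · exact h4.symm
  rw [h2]
  convert h1 using 1

/-- the discriminant of the twist -/
theorem disc_twist {a b u : K} (hΔ : 4 * a ^ 3 + 27 * b ^ 2 ≠ 0) (hu : u ≠ 0)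
    (hev : ¬ Odd (v.ord u)) :
    v.ord (minDisc v (u ^ 2 * a) (u ^ 3 * b)) = v.ord (minDisc v a b) := by
  obtain ⟨t, ht0, ht⟩ := exists_half hev
  have hs := minScale_spec v (ab_of_disc hΔ)
  have hs' := isMin_twist hu ht0 ht hs
  have hΔ' : 4 * (u ^ 2 * a) ^ 3 + 27 * (u ^ 3 * b) ^ 2 ≠ 0 := by
    rw [twist_disc]
    exact mul_ne_zero (pow_ne_zero 6 hu) hΔ
  rw [ord_minDisc_of_min v hΔ' hs', ord_minDisc_of_min v hΔ hs, twist_disc,
    v.ord_mul (pow_ne_zero 6 hu) hΔ, v.ord_pow, v.ord_div hs.1 ht0, ht]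
  push_cast
  ring

end even

section odd

variable {k K : Type} [Field k] [Finite k] [Field K] [Algebra k K] [FF.IsFF k K] {v : Place k K}

theorem sm_of_three (h3 : (3 : k) ≠ 0) {N : ℤ} {x : K} (h : Sm v N (3 * x)) : Sm v N x := by
  have h3K : (3 : K) ≠ 0 := by
    have : (3 : K) = algebraMap k K 3 := by rw [map_ofNat]
    rw [this]
    exact (_root_.map_ne_zero _).2 h3
  have ho : v.ord (3 : K) = 0 := by
    have : (3 : K) = algebraMap k K 3 := by rw [map_ofNat]
    rw [this]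
    exact v.ord_const h3
  rw [mul_comm] at h
  exact sm_of_mul_unit h h3K ho

theorem sm_of_27 (h3 : (3 : k) ≠ 0) {N : ℤ} {x : K} (h : Sm v N (27 * x)) : Sm v N x := by
  have e : 27 * x = 3 * (3 * (3 * x)) := by ring
  rw [e] at h
  exact sm_of_three h3 (sm_of_three h3 (sm_of_three h3 h))

theorem sm_nat_mul {N : ℤ} (n : ℕ) {x : K} (h : Sm v N x) : Sm v N ((n : K) * x) := by
  have := sm_mul v (sm_reg (reg_nat (v := v) n)) h
  rwa [zero_add] at this

/-- a twist by an element of odd valuation has additive reduction -/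
theorem ram_sm (h3 : (3 : k) ≠ 0) {a b α β c w : K} (h : Sc v a b α β c) (hβ : β ≠ 0)
    (hmin : IsMinScale v a b c) (hw0 : w ≠ 0) (hodd : Odd (v.ord w))
    (hA : v.Reg (w ^ 2 * (c ^ 4 * a))) (hB : v.Reg (w ^ 3 * (c ^ 6 * b))) :
    Sm v 1 (w ^ 2 * (c ^ 4 * a)) ∧ Sm v 1 (w ^ 3 * (c ^ 6 * b)) := by
  have rA := h.regA h3
  have rB := h.regB h3
  set A := c ^ 4 * a with hAdef
  set B := c ^ 6 * b with hBdef
  obtain ⟨j, hj⟩ : ∃ j, j = v.ord w := ⟨_, rfl⟩
  rw [← hj] at hodd
  -- the case of positive valuation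
  have pos : 1 ≤ j → Sm v 1 (w ^ 2 * A) ∧ Sm v 1 (w ^ 3 * B) := by
    intro h1
    constructor
    · have h2 := sm_mul v (sm_pow (sm_ord v w) 2) (sm_reg rA)
      refine sm_mono v ?_ h2
      rw [← hj]
      push_cast
      omega
    · have h2 := sm_mul v (sm_pow (sm_ord v w) 3) (sm_reg rB)
      refine sm_mono v ?_ h2
      rw [← hj]
      push_cast
      omega
  by_cases h0 : v.red (c * α) ≠ 0 ∨ v.red (c ^ 3 * β) ≠ 0
  · apply pos
    rcases ab_ne (n3 h3 v) (h.red h3) h0 with h4 | h4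
    · obtain ⟨h5, h6⟩ := ord_of_red rA h4
      rw [v.reg_iff (mul_ne_zero (pow_ne_zero 2 hw0) h5), v.ord_mul (pow_ne_zero 2 hw0) h5,
        v.ord_pow, h6, ← hj] at hA
      push_cast at hA
      obtain ⟨i, hi⟩ := hodd
      omega
    · obtain ⟨h5, h6⟩ := ord_of_red rB h4
      rw [v.reg_iff (mul_ne_zero (pow_ne_zero 3 hw0) h5), v.ord_mul (pow_ne_zero 3 hw0) h5,
        v.ord_pow, h6, ← hj] at hB
      push_cast at hB
      obtain ⟨i, hi⟩ := hodd
      omega
  · push Not at h0
    have sx := sm_of_red h.ra h0.1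
    have sy := sm_of_red h.rb h0.2
    have hT := isT3_scale c h.t
    rw [← hAdef, ← hBdef] at hT
    set x := c * α with hx
    set y := c ^ 3 * β with hy
    have hy0 : y ≠ 0 := mul_ne_zero (pow_ne_zero 3 h.c0) hβ
    obtain ⟨h1, h2⟩ := hT
    obtain ⟨d, hd⟩ : ∃ d, d = v.ord y := ⟨_, rfl⟩
    have hd1 : 1 ≤ d := by rw [hd]; exact sy.resolve_left hy0
    have sy' : Sm v d y := by rw [hd]; exact sm_ord v y
    -- bounds for `A` and `B`
    have sA : ∀ N : ℤ, N ≤ d + 1 → N ≤ 4 → Sm v N A := by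
      intro N hN1 hN2
      apply sm_of_three h3
      rw [h1, sub_eq_add_neg]
      apply sm_add v
      · have h5 := sm_nat_mul 6 (sm_mul v sx sy')
        have e : (6 : K) * x * y = ((6 : ℕ) : K) * (x * y) := by push_cast; ring
        rw [e]
        exact sm_mono v (by omega) h5
      · exact sm_neg v (sm_mono v (by push_cast; omega) (sm_pow sx 4))
    have hd2 : d ≤ 2 := by
      by_contra hcon
      push Not at hcon
      have h5 : Sm v 4 A := sA 4 (by omega) le_rfl
      have h6 : Sm v 6 B := by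
        apply sm_of_27 h3
        rw [h2, sub_eq_add_neg]
        apply sm_add v (sm_add v ?_ ?_) ?_
        · have h7 := sm_nat_mul 27 (sm_pow sy' 2)
          have e : (27 : K) * y ^ 2 = ((27 : ℕ) : K) * y ^ 2 := by push_cast; ring
          rw [e]
          exact sm_mono v (by push_cast; omega) h7
        · have h7 := sm_nat_mul 18 (sm_mul v (sm_pow sx 3) sy')
          have e : (18 : K) * x ^ 3 * y = ((18 : ℕ) : K) * (x ^ 3 * y) := by push_cast; ring
          rw [e]
          exact sm_neg v (sm_mono v (by push_cast; omega) h7)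
        · have h7 := sm_nat_mul 2 (sm_pow sx 6)
          have e : (2 : K) * x ^ 6 = ((2 : ℕ) : K) * x ^ 6 := by push_cast; ring
          rw [e]
          exact sm_mono v (by norm_num) h7
      apply hmin.2.2.2
      constructor
      · rcases h5 with h5 | h5
        · left
          exact (mul_eq_zero.1 h5).resolve_left (pow_ne_zero 4 h.c0)
        · exact Or.inr h5
      · rcases h6 with h6 | h6
        · left
          exact (mul_eq_zero.1 h6).resolve_left (pow_ne_zero 6 h.c0)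
        · exact Or.inr h6
    -- the exact valuation of `B`
    have hB0 : B ≠ 0 ∧ v.ord B = 2 * d := by
      have hδ : Sm v (2 * d + 1) (27 * B - 27 * y ^ 2) := by
        have e : 27 * B - 27 * y ^ 2 = -(((18 : ℕ) : K) * (x ^ 3 * y)) +
            ((2 : ℕ) : K) * x ^ 6 := by
          push_cast
          linear_combination h2
        rw [e]
        apply sm_add v
        · exact sm_neg v (sm_mono v (by push_cast; omega)
            (sm_nat_mul 18 (sm_mul v (sm_pow sx 3) sy')))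
        · exact sm_mono v (by push_cast; omega) (sm_nat_mul 2 (sm_pow sx 6))
      have e2 : 27 * B - 27 * y ^ 2 = 27 * (B - y ^ 2) := by ring
      rw [e2] at hδ
      have hδ' := sm_of_27 h3 hδ
      have hyo : v.ord (y ^ 2) = 2 * d := by
        rw [v.ord_pow, ← hd]
        push_cast
        ring
      have hBne : B ≠ 0 := by
        intro hB0
        rw [hB0, zero_sub] at hδ'
        have h5 := (sm_neg v hδ')
        rw [neg_neg] at h5
        have h6 := h5.resolve_left (pow_ne_zero 2 hy0)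
        omega
      refine ⟨hBne, ?_⟩
      by_cases h5 : B - y ^ 2 = 0
      · rw [sub_eq_zero.1 h5, hyo]
      · have h6 := hδ'.resolve_left h5
        have h7 := v.ord_add_eq (f := y ^ 2) (g := B - y ^ 2) (pow_ne_zero 2 hy0) h5 (by omega)
        rw [add_sub_cancel] at h7
        rw [h7.2, hyo]
    have hBr := hB
    rw [v.reg_iff (mul_ne_zero (pow_ne_zero 3 hw0) hB0.1), v.ord_mul (pow_ne_zero 3 hw0) hB0.1,
      v.ord_pow, hB0.2, ← hj] at hBr
    push_cast at hBr
    obtain ⟨i, hi⟩ := hodd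
    by_cases hj1 : 1 ≤ j
    · exact pos hj1
    · have hj2 : j = -1 := by omega
      have hd3 : d = 2 := by omega
      constructor
      · have h5 := sm_mul v (sm_pow (sm_ord v w) 2) (sA 3 (by omega) (by norm_num))
        refine sm_mono v ?_ h5
        rw [← hj]
        push_cast
        omega
      · right
        rw [v.ord_mul (pow_ne_zero 3 hw0) hB0.1, v.ord_pow, hB0.2, ← hj]
        push_cast
        omega

/-- the twist by an element of odd valuation: additive reduction -/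
theorem add_twist (h6 : (6 : k) ≠ 0) {a b α β u : K} (h : IsT3 a b α β) (hβ : β ≠ 0)
    (hΔ : 4 * a ^ 3 + 27 * b ^ 2 ≠ 0) (hu : u ≠ 0) (hodd : Odd (v.ord u)) :
    S.trace v (u ^ 2 * a) (u ^ 3 * b) = 0 ∧
      v.ord (minDisc v (u ^ 2 * a) (u ^ 3 * b)) ≠ 0 := by
  have h3 := h3_of h6
  have hs := minScale_spec v (ab_of_disc hΔ)
  have hsc := sc_min (v := v) h3 h hΔ
  have hΔ' : 4 * (u ^ 2 * a) ^ 3 + 27 * (u ^ 3 * b) ^ 2 ≠ 0 := by
    rw [twist_disc]
    exact mul_ne_zero (pow_ne_zero 6 hu) hΔ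
  have hab' := ab_of_disc hΔ'
  have hs' := minScale_spec v hab'
  set c := minScale v a b with hc
  set c' := minScale v (u ^ 2 * a) (u ^ 3 * b) with hc'
  set w := (c' / c) ^ 2 * u with hw
  have hw0 : w ≠ 0 := mul_ne_zero (pow_ne_zero 2 (div_ne_zero hs'.1 hs.1)) hu
  have hwo : Odd (v.ord w) := by
    rw [hw, v.ord_mul (pow_ne_zero 2 (div_ne_zero hs'.1 hs.1)) hu, v.ord_pow]
    exact Even.add_odd ⟨v.ord (c' / c), by push_cast; ring⟩ hodd
  have hc0 : c ≠ 0 := hs.1
  have e1 : c' ^ 4 * (u ^ 2 * a) = w ^ 2 * (c ^ 4 * a) := by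
    rw [hw]
    field_simp
  have e2 : c' ^ 6 * (u ^ 3 * b) = w ^ 3 * (c ^ 6 * b) := by
    rw [hw]
    field_simp
  obtain ⟨s1, s2⟩ := ram_sm h3 hsc hβ hs hw0 hwo (by rw [← e1]; exact hs'.2.1)
    (by rw [← e2]; exact hs'.2.2.1)
  have r1 : v.red (c' ^ 4 * (u ^ 2 * a)) = 0 := by rw [e1]; exact red_of_sm zero_lt_one s1
  have r2 : v.red (c' ^ 6 * (u ^ 3 * b)) = 0 := by rw [e2]; exact red_of_sm zero_lt_one s2
  constructor
  · rw [S.trace_eq, trace_of_min v hab' hs', r1, r2, card_sol_cusp, sub_self]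
  · intro h0
    apply (ord_disc_zero_iff hΔ' hs').1 h0
    rw [r1, r2]
    ring

end odd

end Pool.Agent.TH639.B3
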